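import Pool.Agent.H484.AL.Stm

namespace Pool.Agent.H484.AL

open Finset
open scoped Classical

theorem good_mono {d R N : ℕ} {a : Fin d → ℕ} {s s' : ℝ} (h : Good d R N a s) (hs : s' ≤ s) :
    Good d R N a s' := by
  obtain ⟨K, hK, hw⟩ := h
  exact ⟨K, hK, hs.trans hw⟩

theorem t_CMB (hEXC1 : S_EXC1) (hEXC2 : S_EXC2) (hEXC3 : S_EXC3) (hDET : S_DET) : S_CMB := by
  intro e he
  obtain ⟨C1, hC1, h1⟩ := hEXC1 e he
  obtain ⟨c0, C2, hc0, hC2, h2⟩ := hDET e he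
  refine ⟨c0, max C1 C2, hc0, lt_max_of_lt_left hC1, ?_⟩
  intro R B g M a0 J t0 t1 α η hB hR hReg ht01 ht1 hη
  have hBpos : (0 : ℝ) < (B : ℝ) := by
    have := hReg.hB
    exact_mod_cast (by omega : 0 < B)
  have hJpos : (0 : ℝ) < (J : ℝ) := by
    have := hReg.hJ
    exact_mod_cast (by omega : 0 < J)
  have hT : (0 : ℝ) ≤ (t1 : ℝ) - t0 := by
    have : (t0 : ℝ) ≤ t1 := by exact_mod_cast ht01
    linarith
  have e1 := h1 B g M a0 J t0 t1 α hReg ht01 ht1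
  have e2 := hEXC2 e B g M a0 J t0 t1 α η hReg ht01 ht1 hη
  have e3 := hEXC3 e B g M a0 J t0 t1 α η hReg ht01 ht1 hη
  set E1 := univ.filter (fun b : Fin e → Fin M => ∃ t : ℕ, t0 ≤ t ∧ t < t1 ∧
      (B : ℝ) ^ t * Mt e g M a0 B J α (fun i => (b i : ℕ)) t
        < (2 * (J : ℝ)) ^ e / 2 ^ (e + 2)) with hE1
  set E2 := univ.filter (fun b : Fin e → Fin M =>
      ((t1 : ℝ) - t0) * (2 * (J : ℝ)) ^ e * (18 * 4 ^ e) / η
        < QQ e g M a0 B J t0 t1 α (fun i => (b i : ℕ))) with hE2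
  set E3 := univ.filter (fun b : Fin e → Fin M =>
      ((t1 : ℝ) - t0) ^ 2 * ((e : ℝ) + 1) * (2 * (J : ℝ)) ^ (2 * e - 1) * (4 * 4 ^ e) /
          (B : ℝ) ^ t0 / η
        < CF e g M a0 B J t0 t1 α (fun i => (b i : ℕ))) with hE3
  have hsub : univ.filter (fun b : Fin e → Fin M => ¬ Good (e + 1) R (g * M)
      (vec e g a0 α (fun i => (b i : ℕ)))
      (c0 * η * ((t1 : ℝ) - t0) * (J : ℝ) ^ e -
        max C1 C2 / η * ((t1 : ℝ) - t0) ^ 2 * (J : ℝ) ^ (2 * e - 1) / (B : ℝ) ^ t0)) ⊆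
      E1 ∪ E2 ∪ E3 := by
    intro b hb
    simp only [mem_filter, mem_univ, true_and] at hb
    by_contra hcon
    simp only [mem_union, hE1, hE2, hE3, mem_filter, mem_univ, true_and, not_or, not_exists,
      not_and, not_lt] at hcon
    obtain ⟨⟨k1, k2⟩, k3⟩ := hcon
    have hg := h2 R B g M a0 J t0 t1 α (fun i => (b i : ℕ)) η hB hR hReg ht01 ht1 hη
      (fun t ht ht' => k1 t ht ht') k2 k3
    apply hb
    refine good_mono hg ?_
    apply sub_le_sub_left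
    apply div_le_div_of_nonneg_right _ (by positivity)
    apply mul_le_mul_of_nonneg_right _ (by positivity)
    apply mul_le_mul_of_nonneg_right _ (by positivity)
    exact div_le_div_of_nonneg_right (le_max_right _ _) hη.le
  have hcard : ((univ.filter (fun b : Fin e → Fin M => ¬ Good (e + 1) R (g * M)
      (vec e g a0 α (fun i => (b i : ℕ)))
      (c0 * η * ((t1 : ℝ) - t0) * (J : ℝ) ^ e -
        max C1 C2 / η * ((t1 : ℝ) - t0) ^ 2 * (J : ℝ) ^ (2 * e - 1) /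
          (B : ℝ) ^ t0))).card : ℝ) ≤ (E1.card : ℝ) + E2.card + E3.card := by
    have h5 := Finset.card_le_card hsub
    have h6 := Finset.card_union_le (E1 ∪ E2) E3
    have h7 := Finset.card_union_le E1 E2
    exact_mod_cast (h5.trans (h6.trans (by omega)))
  refine hcard.trans ?_
  have hM : (0 : ℝ) ≤ (M : ℝ) ^ e := by positivity
  have hE1' : (E1.card : ℝ) ≤ max C1 C2 * (((t1 : ℝ) - t0) / (B : ℝ) ^ J +
      (B : ℝ) ^ t1 / (J : ℝ) ^ e) * (M : ℝ) ^ e := by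
    refine e1.trans ?_
    apply mul_le_mul_of_nonneg_right _ hM
    apply mul_le_mul_of_nonneg_right (le_max_left _ _)
    positivity
  calc (E1.card : ℝ) + E2.card + E3.card ≤ max C1 C2 * (((t1 : ℝ) - t0) / (B : ℝ) ^ J +
      (B : ℝ) ^ t1 / (J : ℝ) ^ e) * (M : ℝ) ^ e + η * (M : ℝ) ^ e + η * (M : ℝ) ^ e := by
        linarith
    _ = _ := by ring

theorem t_CORED (hCMB : S_CMB) (hASY1 : S_ASY1) (hASY2 : S_ASY2) : S_CORED := by
  intro e he R ε hε
  set R' := max R 1 with hR'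
  set B := 8 * R' + 64 with hB
  have hR1 : 1 ≤ R' := le_max_right _ _
  have hRR : R ≤ R' := le_max_left _ _
  obtain ⟨c0, C, hc0, hC, hcmb⟩ := hCMB e he
  obtain ⟨c1, J0, hc1, h1⟩ := hASY1 e B c0 C ε he (by omega) hc0 hC hε
  obtain ⟨c', N0, hc', h2⟩ := hASY2 e B c1 J0 he (by omega) hc1
  have hepos : (0 : ℝ) < (e : ℝ) := by exact_mod_cast (by omega : 0 < e)
  refine ⟨c', 1 / (80 * (e : ℝ)), max N0 1, hc', by positivity, ?_⟩
  intro g M a0 α hN hg hcop hprim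
  have hN1 : 1 ≤ g * M := (le_max_right _ _).trans hN
  have hg1 : 1 ≤ g := by
    rcases Nat.eq_zero_or_pos g with h | h
    · rw [h, zero_mul] at hN1; omega
    · exact h
  obtain ⟨J, hJ0, hJ1, hBN, h8, hval⟩ := h2 (g * M) ((le_max_left _ _).trans hN)
  obtain ⟨t0, t1, ht01, ht1J, hprob, hval2⟩ := h1 J hJ0
  have hReg : Reg e B g M a0 α J := by
    refine ⟨he, by omega, hJ1, hg1, ?_, hBN, hcop, hprim⟩
    have : (8 : ℝ) * g ≤ (B : ℝ) ^ J := le_trans (by linarith) h8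
    exact_mod_cast this
  have hη : 0 < ε / 4 := by positivity
  have h3 := hcmb R' B g M a0 J t0 t1 α (ε / 4) rfl hR1 hReg ht01 ht1J hη
  have hM : (0 : ℝ) ≤ (M : ℝ) ^ e := by positivity
  refine le_trans ?_ (mul_le_mul_of_nonneg_right hprob hM)
  refine le_trans ?_ h3
  have hsub : univ.filter (fun b : Fin e → Fin M => ¬ Good (e + 1) R (g * M)
      (vec e g a0 α (fun i => (b i : ℕ)))
      (c' * (Real.log ((g * M : ℕ) : ℝ)) ^ e * Real.log (Real.log ((g * M : ℕ) : ℝ)))) ⊆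
      univ.filter (fun b : Fin e → Fin M => ¬ Good (e + 1) R' (g * M)
      (vec e g a0 α (fun i => (b i : ℕ)))
      (c0 * (ε / 4) * ((t1 : ℝ) - t0) * (J : ℝ) ^ e -
        C / (ε / 4) * ((t1 : ℝ) - t0) ^ 2 * (J : ℝ) ^ (2 * e - 1) / (B : ℝ) ^ t0)) := by
    intro b hb
    simp only [mem_filter, mem_univ, true_and] at hb ⊢
    intro hgood
    apply hb
    obtain ⟨K, ⟨hK1, hK2⟩, hw⟩ := hgood
    refine ⟨K, ⟨hK1, ?_⟩, ?_⟩
    · intro k hk k' hk' hne i
      have hRR' : (R : ℤ) ≤ (R' : ℤ) := by exact_mod_cast hRR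
      rcases hK2 k hk k' hk' hne i with h | h
      · left
        exact le_trans (mul_le_mul_of_nonneg_right hRR' (abs_nonneg _)) h
      · right
        exact le_trans (mul_le_mul_of_nonneg_right hRR' (abs_nonneg _)) h
    · exact (hval.trans hval2).trans hw
  exact_mod_cast Finset.card_le_card hsub

end Pool.Agent.H484.AL
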