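import Pool.Agent.H484.AL.Stm

namespace Pool.Agent.H484.AL

open Finset
open scoped Classical

theorem fin (hRIESZ : S_RIESZ) (hDISC : S_DISC) (hP : ∀ e : ℕ, 1 ≤ e → PROBe e) : S_FINAL := by
  intro d hd χ hχ
  obtain ⟨e, rfl⟩ : ∃ e, d = e + 1 := ⟨d - 1, by omega⟩
  have he : 1 ≤ e := by omega
  have hpi : 0 < Real.pi := Real.pi_pos
  obtain ⟨R, hR⟩ := exists_nat_ge (2 + 2 * (2 * Real.pi) ^ (e + 1))
  obtain ⟨c, N0, hc, hN0⟩ := hP e he R (1 - χ) (by linarith)
  set cd : ℝ := 1 / 2 * (1 / (4 * Real.pi) ^ (e + 1)) with hcd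
  have hcd0 : 0 < cd := by positivity
  set K : ℝ := ((N0 : ℝ) + 1) ^ (e + 1) with hK
  have hK0 : 0 < K := by positivity
  refine ⟨min (cd * c) (1 / K), lt_min (by positivity) (by positivity), ?_⟩
  intro N hN
  have hNr : (1 : ℝ) ≤ N := by exact_mod_cast hN
  have hN0' : (0 : ℝ) < N := by linarith
  have hlog0 : 0 ≤ Real.log (N : ℝ) := Real.log_nonneg hNr
  by_cases hlarge : N0 ≤ N
  · have h1 := hN0 N hlarge
    have hsub : (univ.filter (fun a : Fin (e + 1) → Fin N => ¬ Good (e + 1) R N (fun i => (a i : ℕ))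
        (c * (Real.log (N : ℝ)) ^ e * Real.log (Real.log (N : ℝ)))))ᶜ ⊆
        univ.filter (fun a : Fin (e + 1) → Fin N =>
          min (cd * c) (1 / K) * ((Real.log (N : ℝ)) ^ (e + 1 - 1) *
            Real.log (Real.log (N : ℝ))) / (N : ℝ) ≤ Disc (e + 1) N (fun i => (a i : ℕ))) := by
      intro a ha
      simp only [mem_compl, mem_filter, mem_univ, true_and, not_not] at ha ⊢
      have h2 := hRIESZ e R N (fun i => (a i : ℕ)) _ hR hN ha
      have h3 := (hDISC (e + 1) N (fun i => (a i : ℕ)) hN).2 (by omega)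
      have hD0 : 0 ≤ Disc (e + 1) N (fun i => (a i : ℕ)) := le_trans (by positivity) h3
      rw [div_le_iff₀ hN0', Nat.add_sub_cancel]
      by_cases hs : 0 ≤ (Real.log (N : ℝ)) ^ e * Real.log (Real.log (N : ℝ))
      · calc min (cd * c) (1 / K) * ((Real.log (N : ℝ)) ^ e * Real.log (Real.log (N : ℝ)))
            ≤ (cd * c) * ((Real.log (N : ℝ)) ^ e * Real.log (Real.log (N : ℝ))) :=
              mul_le_mul_of_nonneg_right (min_le_left _ _) hs
          _ = cd * (c * (Real.log (N : ℝ)) ^ e * Real.log (Real.log (N : ℝ))) := by ring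
          _ ≤ (N : ℝ) * Disc (e + 1) N (fun i => (a i : ℕ)) := h2
          _ = _ := by ring
      · have hm : 0 < min (cd * c) (1 / K) := lt_min (by positivity) (by positivity)
        have : min (cd * c) (1 / K) * ((Real.log (N : ℝ)) ^ e * Real.log (Real.log (N : ℝ))) ≤ 0 :=
          mul_nonpos_of_nonneg_of_nonpos hm.le (not_le.1 hs).le
        exact this.trans (by positivity)
    have h4 := Finset.card_le_card hsub
    rw [Finset.card_compl] at h4
    have h5 : Fintype.card (Fin (e + 1) → Fin N) = N ^ (e + 1) := by simp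
    have h6 : ((N ^ (e + 1) : ℕ) : ℝ) ≤
        ((univ.filter (fun a : Fin (e + 1) → Fin N => ¬ Good (e + 1) R N (fun i => (a i : ℕ))
        (c * (Real.log (N : ℝ)) ^ e * Real.log (Real.log (N : ℝ))))).card : ℝ) +
        ((univ.filter (fun a : Fin (e + 1) → Fin N =>
          min (cd * c) (1 / K) * ((Real.log (N : ℝ)) ^ (e + 1 - 1) *
            Real.log (Real.log (N : ℝ))) / (N : ℝ) ≤
              Disc (e + 1) N (fun i => (a i : ℕ)))).card : ℝ) := by
      have : N ^ (e + 1) ≤
        (univ.filter (fun a : Fin (e + 1) → Fin N => ¬ Good (e + 1) R N (fun i => (a i : ℕ))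
        (c * (Real.log (N : ℝ)) ^ e * Real.log (Real.log (N : ℝ))))).card +
        (univ.filter (fun a : Fin (e + 1) → Fin N =>
          min (cd * c) (1 / K) * ((Real.log (N : ℝ)) ^ (e + 1 - 1) *
            Real.log (Real.log (N : ℝ))) / (N : ℝ) ≤
              Disc (e + 1) N (fun i => (a i : ℕ)))).card := by
        rw [← h5]; omega
      exact_mod_cast this
    rw [Nat.cast_pow] at h6
    have h7 : χ * (N : ℝ) ^ (e + 1) = (N : ℝ) ^ (e + 1) - (1 - χ) * (N : ℝ) ^ (e + 1) := by ring
    rw [h7]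
    linarith
  · push_neg at hlarge
    have hall : ∀ a : Fin (e + 1) → Fin N,
        min (cd * c) (1 / K) * ((Real.log (N : ℝ)) ^ (e + 1 - 1) *
            Real.log (Real.log (N : ℝ))) / (N : ℝ) ≤ Disc (e + 1) N (fun i => (a i : ℕ)) := by
      intro a
      have h3 := (hDISC (e + 1) N (fun i => (a i : ℕ)) hN).2 (by omega)
      refine le_trans ?_ h3
      rw [Nat.add_sub_cancel]
      apply div_le_div_of_nonneg_right _ hN0'.le
      by_cases hs : 0 ≤ (Real.log (N : ℝ)) ^ e * Real.log (Real.log (N : ℝ))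
      · have hNN : (N : ℝ) ≤ N0 + 1 := by
          have : (N : ℝ) ≤ N0 := by exact_mod_cast hlarge.le
          linarith
        have hl1 : Real.log (N : ℝ) ≤ N0 + 1 := (Real.log_le_self hN0'.le).trans hNN
        have hl2 : Real.log (Real.log (N : ℝ)) ≤ N0 + 1 := (Real.log_le_self hlog0).trans hl1
        have hprod : (Real.log (N : ℝ)) ^ e * Real.log (Real.log (N : ℝ)) ≤ K := by
          calc (Real.log (N : ℝ)) ^ e * Real.log (Real.log (N : ℝ))
              ≤ (Real.log (N : ℝ)) ^ e * (N0 + 1) :=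
                mul_le_mul_of_nonneg_left hl2 (by positivity)
            _ ≤ ((N0 : ℝ) + 1) ^ e * (N0 + 1) :=
                mul_le_mul_of_nonneg_right (pow_le_pow_left₀ hlog0 hl1 _) (by positivity)
            _ = K := by rw [hK]; ring
        calc min (cd * c) (1 / K) * ((Real.log (N : ℝ)) ^ e * Real.log (Real.log (N : ℝ)))
            ≤ (1 / K) * ((Real.log (N : ℝ)) ^ e * Real.log (Real.log (N : ℝ))) :=
              mul_le_mul_of_nonneg_right (min_le_right _ _) hs
          _ ≤ (1 / K) * K := mul_le_mul_of_nonneg_left hprod (by positivity)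
          _ = 1 := by field_simp
      · have hm : 0 < min (cd * c) (1 / K) := lt_min (by positivity) (by positivity)
        have : min (cd * c) (1 / K) * ((Real.log (N : ℝ)) ^ e * Real.log (Real.log (N : ℝ))) ≤ 0 :=
          mul_nonpos_of_nonneg_of_nonpos hm.le (not_le.1 hs).le
        linarith
    rw [Finset.filter_true_of_mem (fun a _ => hall a), Finset.card_univ]
    have h5 : Fintype.card (Fin (e + 1) → Fin N) = N ^ (e + 1) := by simp
    rw [h5]
    push_cast
    have : 0 < (N : ℝ) ^ (e + 1) := by positivity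
    nlinarith

end Pool.Agent.H484.AL
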