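import Pool.Agent.H484.AL.Stm

namespace Pool.Agent.H484.AL

open Finset
open scoped Classical

theorem dvd_alpha {e g M a0 k : ℕ} {α b l : Fin e → ℕ}
    (h : g * M ∣ g * a0 * k + ∑ i, (α i + g * b i) * l i) : g ∣ ∑ i, α i * l i := by
  have h1 : g ∣ g * a0 * k + ∑ i, (α i + g * b i) * l i := (Dvd.intro _ rfl).trans h
  have h2 : g * a0 * k + ∑ i, (α i + g * b i) * l i
      = g * (a0 * k + ∑ i, b i * l i) + ∑ i, α i * l i := by
    rw [mul_add, Finset.mul_sum, add_assoc, ← Finset.sum_add_distrib, mul_assoc]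
    congr 1
    apply Finset.sum_congr rfl
    intro i _
    ring
  rw [h2] at h1
  exact (Nat.dvd_add_right (Dvd.intro _ rfl)).1 h1

/-- the inner set of `S_NSUM` -/
def Nset (e g B J : ℕ) (α j : Fin e → ℕ) (m : ℕ) : Finset (Fin e → ℕ) :=
  (Fintype.piFinset (fun _ : Fin e => Ico 1 (2 * B ^ (5 * J)))).filter (fun l =>
      (∀ i, B ^ (j i) ≤ m * l i ∧ m * l i < 2 * B ^ (j i)) ∧ g ∣ ∑ i, α i * l i)

theorem parc_point (hPARSTR : S_PARSTR) (hKAP : S_KAP) {e B g M a0 J : ℕ} {α : Fin e → ℕ}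
    (hR : Reg e B g M a0 α J) {t : ℕ} {j : Fin e → ℕ} (ht : t ≤ J) (hj : j ∈ jset e J)
    (b : Fin e → ℕ) {l l' : Fin e → ℕ} (hl : l ∈ Lset e g B α j) (hl' : l' ∈ Lset e g B α j)
    (hne : l ≠ l') (hpar : Par e l l') (h1 : EvC e g M a0 B α b t j l)
    (h2 : EvC e g M a0 B α b t j l') :
    ∃ m ∈ Ico 2 (2 * B ^ (5 * J)), ∃ m' ∈ range (2 * m), ∃ l'' ∈ (Nset e g B J α j m).filter
      (fun l'' => Ev e g M a0 α b l'' (kap e (g * M) B t j / m)
        (2 * kap e (g * M) B t j / m - kap e (g * M) B t j / m)),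
      (l, l') = ((fun i => m * l'' i), (fun i => m' * l'' i)) := by
  obtain ⟨hk1, hk2, hk3, hk4⟩ := hKAP e B g M a0 J α hR t j ht hj
  set κ := kap e (g * M) B t j with hκ
  have he := hR.he
  have hB := hR.hB
  simp only [Lset, mem_filter, Fintype.mem_piFinset, mem_Ico] at hl hl'
  obtain ⟨hl1, hl2⟩ := hl
  obtain ⟨hl1', hl2'⟩ := hl'
  simp only [jset, Fintype.mem_piFinset, mem_Ico] at hj
  obtain ⟨k, hka, hkb, hkd⟩ := h1
  obtain ⟨k', hka', hkb', hkd'⟩ := h2
  rw [← hκ] at hka hkb hka' hkb'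
  have hpow : ∀ i, B ^ (j i) ≤ B ^ (5 * J) := fun i =>
    Nat.pow_le_pow_right (by omega) (hj i).2.le
  have hpos : ∀ i, 1 ≤ B ^ (j i) := fun i => Nat.one_le_pow _ _ (by omega)
  have hll : ∀ i, l i * k' < M := by
    intro i
    have ha : l i ≤ 2 * B ^ (5 * J) := by have := (hl1 i).2; have := hpow i; omega
    calc l i * k' ≤ (2 * B ^ (5 * J)) * (2 * κ) := Nat.mul_le_mul ha (by omega)
      _ = 4 * B ^ (5 * J) * κ := by ring
      _ < M := hk4
  have hll' : ∀ i, l' i * k < M := by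
    intro i
    have ha : l' i ≤ 2 * B ^ (5 * J) := by have := (hl1' i).2; have := hpow i; omega
    calc l' i * k ≤ (2 * B ^ (5 * J)) * (2 * κ) := Nat.mul_le_mul ha (by omega)
      _ = 4 * B ^ (5 * J) * κ := by ring
      _ < M := hk4
  obtain ⟨m, m', k'', l'', hm, hm', hmm, hkk, hkk', hlm, hlm', hd⟩ :=
    hPARSTR e g M a0 k k' α b l l' (by omega) hR.hg hR.ha
      (fun i => (hpos i).trans (hl1 i).1) (fun i => (hpos i).trans (hl1' i).1)
      (by omega) (by omega) hpar hkd hkd' hll' hll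
  have i0 : Fin e := ⟨0, by omega⟩
  have hl0 : ∀ i, 1 ≤ l'' i := by
    intro i
    have h3 := (hpos i).trans (hl1 i).1
    rw [hlm i] at h3
    rcases Nat.eq_zero_or_pos (l'' i) with h | h
    · rw [h, mul_zero] at h3; omega
    · exact h
  have hr1 : m < 2 * m' := by
    have ha := (hl1 i0).2
    have hb := (hl1' i0).1
    rw [hlm i0] at ha
    rw [hlm' i0] at hb
    have : m * l'' i0 < (2 * m') * l'' i0 := by
      calc m * l'' i0 < 2 * B ^ (j i0) := ha
        _ ≤ 2 * (m' * l'' i0) := by omega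
        _ = _ := by ring
    exact Nat.lt_of_mul_lt_mul_right this
  have hr2 : m' < 2 * m := by
    have ha := (hl1' i0).2
    have hb := (hl1 i0).1
    rw [hlm' i0] at ha
    rw [hlm i0] at hb
    have : m' * l'' i0 < (2 * m) * l'' i0 := by
      calc m' * l'' i0 < 2 * B ^ (j i0) := ha
        _ ≤ 2 * (m * l'' i0) := by omega
        _ = _ := by ring
    exact Nat.lt_of_mul_lt_mul_right this
  have hm2 : 2 ≤ m := by
    by_contra hcon
    have hm1 : m = 1 := by omega
    have hm1' : m' = 1 := by omega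
    apply hne
    funext i
    rw [hlm i, hlm' i, hm1, hm1']
  have hmB : m < 2 * B ^ (5 * J) := by
    have ha := (hl1 i0).2
    rw [hlm i0] at ha
    have := hl0 i0
    have h4 := hpow i0
    nlinarith
  refine ⟨m, mem_Ico.2 ⟨hm2, hmB⟩, m', mem_range.2 hr2, l'', ?_, ?_⟩
  · simp only [Nset, mem_filter, Fintype.mem_piFinset, mem_Ico]
    refine ⟨⟨fun i => ⟨hl0 i, ?_⟩, fun i => ?_, dvd_alpha hd⟩, k'', ?_, ?_, hd⟩
    · have ha := (hl1 i).2
      rw [hlm i] at ha
      have h4 := hpow i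
      nlinarith
    · rw [← hlm i]; exact hl1 i
    · rw [hkk] at hka
      exact Nat.div_lt_of_lt_mul hka
    · have h5 : k'' ≤ 2 * κ / m := by
        rw [Nat.le_div_iff_mul_le (by omega)]
        rw [hkk] at hkb
        calc k'' * m = m * k'' := by ring
          _ ≤ κ + κ := hkb
          _ = 2 * κ := by ring
      have h6 : κ / m ≤ 2 * κ / m := Nat.div_le_div_right (by omega)
      omega
  · rw [Prod.mk.injEq]
    exact ⟨funext hlm, funext hlm'⟩

theorem t_PARC (hPARSTR : S_PARSTR) (hKAP : S_KAP) (hSINGLE : S_SINGLE) (hNSUM : S_NSUM) :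
    S_PARC := by
  intro e B g M a0 J α hR t j ht hj
  obtain ⟨hk1, hk2, hk3, hk4⟩ := hKAP e B g M a0 J α hR t j ht hj
  have hns := hNSUM e B g M a0 J α hR j hj
  have hpt := fun (b : Fin e → ℕ) (l l' : Fin e → ℕ) => @parc_point hPARSTR hKAP e B g M a0 J α hR
    t j ht hj b l l'
  set κ := kap e (g * M) B t j with hκ
  have he := hR.he
  have hB := hR.hB
  have hg := hR.hg
  have hM1 : 1 ≤ M := by omega
  have hjj := hj
  simp only [jset, Fintype.mem_piFinset, mem_Ico] at hjj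
  -- pointwise bound
  have hpw : ∀ b : Fin e → Fin M, ((Lset e g B α j ×ˢ Lset e g B α j).filter (fun z =>
      z.1 ≠ z.2 ∧ Par e z.1 z.2 ∧ EvC e g M a0 B α (fun i => (b i : ℕ)) t j z.1 ∧
      EvC e g M a0 B α (fun i => (b i : ℕ)) t j z.2)).card ≤
      ∑ m ∈ Ico 2 (2 * B ^ (5 * J)), 2 * m * ((Nset e g B J α j m).filter
      (fun l'' => Ev e g M a0 α (fun i => (b i : ℕ)) l'' (κ / m)
        (2 * κ / m - κ / m))).card := by
    intro b
    have hsub : (Lset e g B α j ×ˢ Lset e g B α j).filter (fun z =>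
      z.1 ≠ z.2 ∧ Par e z.1 z.2 ∧ EvC e g M a0 B α (fun i => (b i : ℕ)) t j z.1 ∧
      EvC e g M a0 B α (fun i => (b i : ℕ)) t j z.2) ⊆
      (Ico 2 (2 * B ^ (5 * J))).biUnion (fun m => (range (2 * m)).biUnion (fun m' =>
        ((Nset e g B J α j m).filter
      (fun l'' => Ev e g M a0 α (fun i => (b i : ℕ)) l'' (κ / m)
        (2 * κ / m - κ / m))).image (fun l'' =>
          (((fun i => m * l'' i) : Fin e → ℕ), ((fun i => m' * l'' i) : Fin e → ℕ))))) := by
      rintro ⟨l, l'⟩ hz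
      simp only [mem_filter, mem_product] at hz
      obtain ⟨⟨hl, hl'⟩, hne, hpar, h1, h2⟩ := hz
      obtain ⟨m, hm, m', hm', l'', hl'', heq⟩ := hpt _ l l' hl hl' hne hpar h1 h2
      simp only [mem_biUnion, mem_image]
      exact ⟨m, hm, m', hm', l'', hl'', heq.symm⟩
    refine (Finset.card_le_card hsub).trans (Finset.card_biUnion_le.trans ?_)
    apply Finset.sum_le_sum
    intro m _
    refine Finset.card_biUnion_le.trans ?_
    calc ∑ m' ∈ range (2 * m), (((Nset e g B J α j m).filter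
      (fun l'' => Ev e g M a0 α (fun i => (b i : ℕ)) l'' (κ / m)
        (2 * κ / m - κ / m))).image (fun l'' =>
          (((fun i => m * l'' i) : Fin e → ℕ), ((fun i => m' * l'' i) : Fin e → ℕ)))).card
        ≤ ∑ m' ∈ range (2 * m), ((Nset e g B J α j m).filter
      (fun l'' => Ev e g M a0 α (fun i => (b i : ℕ)) l'' (κ / m)
        (2 * κ / m - κ / m))).card := Finset.sum_le_sum (fun m' _ => Finset.card_image_le)
      _ = _ := by rw [Finset.sum_const, card_range, smul_eq_mul]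
  -- swap
  have hswap : ∀ m, ∑ b : Fin e → Fin M, ((Nset e g B J α j m).filter
      (fun l'' => Ev e g M a0 α (fun i => (b i : ℕ)) l'' (κ / m)
        (2 * κ / m - κ / m))).card = ∑ l'' ∈ Nset e g B J α j m,
        (univ.filter (fun b : Fin e → Fin M => Ev e g M a0 α (fun i => (b i : ℕ)) l'' (κ / m)
          (2 * κ / m - κ / m))).card := by
    intro m
    simp only [Finset.card_filter]
    rw [Finset.sum_comm]
  have i0 : Fin e := ⟨0, by omega⟩
  have hBJ : 4 * B ^ (5 * J) ≤ κ := by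
    refine le_trans ?_ hk3
    have hJ := hR.hJ
    calc 4 * B ^ (5 * J) ≤ B * B ^ (5 * J) := Nat.mul_le_mul_right _ (by omega)
      _ = B ^ (5 * J + 1) := by rw [pow_succ]; ring
      _ ≤ B ^ (34 * e * J) := Nat.pow_le_pow_right (by omega) (by nlinarith)
  have hone : ∀ m ∈ Ico 2 (2 * B ^ (5 * J)), ∀ l'' ∈ Nset e g B J α j m,
      2 * m * (univ.filter (fun b : Fin e → Fin M => Ev e g M a0 α (fun i => (b i : ℕ)) l'' (κ / m)
          (2 * κ / m - κ / m))).card ≤ 4 * κ * M ^ (e - 1) := by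
    intro m hm l'' hl''
    simp only [mem_Ico] at hm
    simp only [Nset, mem_filter, Fintype.mem_piFinset, mem_Ico] at hl''
    obtain ⟨ha, hb, hc⟩ := hl''
    have hκM : κ < M := by
      have : 1 ≤ B ^ (5 * J) := Nat.one_le_pow _ _ (by omega)
      nlinarith
    have hL : m * (2 * κ / m - κ / m) ≤ κ + m := by
      have h1 : m * (2 * κ / m) ≤ 2 * κ := Nat.mul_div_le _ _
      have h2 : κ < m * (κ / m) + m := by
        have := Nat.div_add_mod κ m
        have := Nat.mod_lt κ (show 0 < m by omega)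
        omega
      rw [Nat.mul_sub]
      omega
    have hLM : 2 * κ / m - κ / m ≤ M := by
      have h7 : 2 * κ / m ≤ κ := by
        rw [Nat.div_le_iff_le_mul_add_pred (by omega)]
        nlinarith
      exact (Nat.sub_le _ _).trans (h7.trans hκM.le)
    have hs := (hSINGLE e g M a0 α l'' (κ / m) (2 * κ / m - κ / m) i0 hg hM1 hR.ha hLM
      (ha i0).1 hc).1
    have hml : m * l'' i0 ≤ 2 * B ^ (5 * J) := by
      have h1 := (hb i0).2
      have h2 : B ^ (j i0) ≤ B ^ (5 * J) := Nat.pow_le_pow_right (by omega) (hjj i0).2.le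
      omega
    calc 2 * m * (univ.filter (fun b : Fin e → Fin M => Ev e g M a0 α (fun i => (b i : ℕ)) l''
          (κ / m) (2 * κ / m - κ / m))).card
        ≤ 2 * m * ((2 * κ / m - κ / m + l'' i0) * M ^ (e - 1)) := Nat.mul_le_mul_left _ hs
      _ = 2 * (m * (2 * κ / m - κ / m) + m * l'' i0) * M ^ (e - 1) := by ring
      _ ≤ 2 * (2 * κ) * M ^ (e - 1) := by
          apply Nat.mul_le_mul_right
          apply Nat.mul_le_mul_left
          omega
      _ = _ := by ring
  have htot : ∑ b : Fin e → Fin M, ((Lset e g B α j ×ˢ Lset e g B α j).filter (fun z =>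
      z.1 ≠ z.2 ∧ Par e z.1 z.2 ∧ EvC e g M a0 B α (fun i => (b i : ℕ)) t j z.1 ∧
      EvC e g M a0 B α (fun i => (b i : ℕ)) t j z.2)).card ≤
      4 * κ * M ^ (e - 1) * ∑ m ∈ Ico 2 (2 * B ^ (5 * J)), (Nset e g B J α j m).card := by
    refine (Finset.sum_le_sum (fun b _ => hpw b)).trans ?_
    rw [Finset.sum_comm, Finset.mul_sum]
    apply Finset.sum_le_sum
    intro m hm
    rw [← Finset.mul_sum, hswap m, Finset.mul_sum]
    refine (Finset.sum_le_sum (fun l'' hl'' => hone m hm l'' hl'')).trans ?_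
    rw [Finset.sum_const, smul_eq_mul]
    exact le_of_eq (by ring)
  have hprod : B ^ (t + ∑ i, j i) = B ^ t * ∏ i, B ^ (j i) := by
    rw [pow_add, Finset.prod_pow_eq_pow_sum]
  have hfin : g * (B ^ t * ∑ b : Fin e → Fin M, ((Lset e g B α j ×ˢ Lset e g B α j).filter
      (fun z => z.1 ≠ z.2 ∧ Par e z.1 z.2 ∧ EvC e g M a0 B α (fun i => (b i : ℕ)) t j z.1 ∧
      EvC e g M a0 B α (fun i => (b i : ℕ)) t j z.2)).card) ≤ g * (4 * 3 ^ (e + 1) * M ^ e) := by
    calc g * (B ^ t * ∑ b : Fin e → Fin M, ((Lset e g B α j ×ˢ Lset e g B α j).filter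
      (fun z => z.1 ≠ z.2 ∧ Par e z.1 z.2 ∧ EvC e g M a0 B α (fun i => (b i : ℕ)) t j z.1 ∧
      EvC e g M a0 B α (fun i => (b i : ℕ)) t j z.2)).card)
        ≤ g * (B ^ t * (4 * κ * M ^ (e - 1) *
          ∑ m ∈ Ico 2 (2 * B ^ (5 * J)), (Nset e g B J α j m).card)) := by
          apply Nat.mul_le_mul_left
          exact Nat.mul_le_mul_left _ htot
      _ = B ^ t * (4 * κ * M ^ (e - 1)) *
          (g * ∑ m ∈ Ico 2 (2 * B ^ (5 * J)), (Nset e g B J α j m).card) := by ring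
      _ ≤ B ^ t * (4 * κ * M ^ (e - 1)) * (3 ^ (e + 1) * ∏ i, B ^ (j i)) :=
          Nat.mul_le_mul_left _ hns
      _ = 4 * 3 ^ (e + 1) * M ^ (e - 1) * (κ * (B ^ t * ∏ i, B ^ (j i))) := by ring
      _ ≤ 4 * 3 ^ (e + 1) * M ^ (e - 1) * (g * M) := by
          rw [← hprod]
          exact Nat.mul_le_mul_left _ hk1
      _ = g * (4 * 3 ^ (e + 1) * (M ^ (e - 1) * M)) := by ring
      _ = _ := by rw [← pow_succ, Nat.sub_add_cancel (by omega)]
  exact Nat.le_of_mul_le_mul_left hfin (by omega)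

end Pool.Agent.H484.AL
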