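import Pool.Agent.H154.AL.RP
import Pool.Agent.H155.AL.PAIR
import Pool.Agent.H157.AL.PARSTR
import Pool.Agent.H176.AL.CHEB
import Pool.Agent.H187.AL.PAIR2
import Pool.Agent.H195.AL.EXC1
import Pool.Agent.H195.AL.RIESZ
import Pool.Agent.H196.AL.RM
import Pool.Agent.H200.AL.M2
import Pool.Agent.H200.AL.PSUM
import Pool.Agent.H249.AL.NP
import Pool.Agent.H25.AL.TREE
import Pool.Agent.H254.AL.CYL
import Pool.Agent.H261.AL.CROSS
import Pool.Agent.H261.AL.LAC
import Pool.Agent.H264.AL.SQ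
import Pool.Agent.H278.AL.SINGLE
import Pool.Agent.H32.AL.MASS
import Pool.Agent.H32.AL.REST
import Pool.Agent.H331.AL.FIB
import Pool.Agent.H356.AL.CORE1
import Pool.Agent.H357.AL.FE
import Pool.Agent.H404.AL.CONF
import Pool.Agent.H404.AL.SM
import Pool.Agent.H415.AL.DET
import Pool.Agent.H415.AL.GCD
import Pool.Agent.H447.AL.ONE
import Pool.Agent.H484.AL.CMB
import Pool.Agent.H484.AL.PARC
import Pool.Agent.H52.AL.INTV
import Pool.Agent.H549.AL.HOM
import Pool.Agent.H549.AL.MOM1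
import Pool.Agent.H553.AL.SEL
import Pool.Agent.H59.AL.PROB
import Pool.Agent.H638.AL.LK
import Pool.Agent.H651.AL.DISC
import Pool.Agent.H658.AL.DISJ
import Pool.Agent.H658.AL.PASY
import Pool.Agent.H665.AL.FOUR
import Pool.Agent.H670.AL.MOM2
import Pool.Agent.H675.AL.ASY1
import Pool.Agent.H675.AL.ASY2
import Pool.Agent.H675.AL.ASYE
import Pool.Agent.H695.AL.RES
import Pool.Agent.H703.AL.QM
import Pool.Agent.H707.AL.FINEW
import Pool.Agent.H726.AL.LCNT
import Pool.Agent.H729.AL.SEP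
import Pool.Agent.H828.ALK.EXC3
import Pool.Agent.H828.ALK.KAP
import Pool.Agent.H860.AL.NSUM
import Pool.Agent.H922.AL.ARC
import Pool.Agent.H935.AL.UNI
import Pool.Agent.H94.AL.CNTI
import Pool.Agent.H947.AL.CFN
import Pool.Agent.H975.AL.PRIM
import Pool.Agent.H990.AL.EXC2
import Pool.Agent.H484.AL.Fin

namespace Pool.Agent.H484.AL

theorem core_all : ∀ e : ℕ, 1 ≤ e → CORE e := by
  have hINTV := t_INTV
  have hSINGLE := t_SINGLE hINTV
  have hPAIR := t_PAIR t_PAIR2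
  have hLCNT := t_LCNT t_RES
  have hKAP := t_KAP
  have hLK := t_LK hLCNT hKAP
  have hONE := t_ONE hSINGLE hKAP
  have hNP := t_NP hPAIR hKAP
  have hCROSS := t_CROSS t_PARSTR hKAP
  have hNSUM := t_NSUM hLCNT
  have hPARC := t_PARC t_PARSTR hKAP hSINGLE hNSUM
  have hCONF := t_CONF hNP hCROSS hLK
  have hQM := t_QM hNP hPARC hONE hLK
  have hMOM1 := t_MOM1 hONE
  have hMOM2 := t_MOM2 hNP hCROSS hPARC hMOM1
  have hM2 := t_M2 hMOM1 hMOM2
  have hCHEB := t_CHEB hM2 hLK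
  have hSEP := t_SEP hKAP
  have hSEL := t_SEL hSEP hKAP
  have hEXC1 := t_EXC1 hCHEB
  have hEXC2 := t_EXC2 hQM
  have hEXC3 := t_EXC3 hCONF t_CFN
  have hDET := t_DET hSEL
  have hCMB := t_CMB hEXC1 hEXC2 hEXC3 hDET
  have hCORED := t_CORED hCMB t_ASY1 t_ASY2
  have hTREE := t_TREE
  have hMASS := t_MASS hTREE
  have hSQ := t_SQ hTREE
  have hFE := t_FE hTREE
  have hCNTI := t_CNTI hINTV
  have hFINEW := t_FINEW hMASS hSQ hFE
  have hUNI := t_UNI t_DISJ hCNTI t_CYL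
  have hCORE1 := t_CORE1 hFINEW hUNI t_ASYE
  intro e he
  rcases Nat.lt_or_ge e 2 with h | h
  · have : e = 1 := by omega
    subst this
    exact hCORE1
  · exact hCORED e h

theorem riesz_all : S_RIESZ :=
  t_RIESZ (t_RM (t_ARC t_DISC) t_FOUR t_SM t_LAC t_RP) t_SM t_REST

theorem final_all : S_FINAL :=
  fin riesz_all t_DISC (fun e he =>
    t_PROB t_HOM t_PSUM t_PASY e he (t_PRIM t_GCD t_FIB e he (core_all e he)))

end Pool.Agent.H484.AL
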