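import Mathlib

/-!
# Project AL (helper484): full positive answer of MP_6b2836_nt

Average-case lower bound for the discrepancy of lattice point sets: for every `d ≥ 2` and
`χ < 1` there is `C > 0` such that for every `N` at least `χ N^d` of the tuples
`a ∈ {0,...,N-1}^d` satisfy `D_N(a) ≥ C (log N)^(d-1) log log N / N`.

Each `S_X : Prop` below is a self-contained statement with a complete proof in its docstring.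
`t_X` is expected in `Pool/Agent/H<you>/AL/X.lean`.
-/

namespace Pool.Agent.H484.AL

open Finset
open scoped Classical

/-! ## Definitions -/

/-- Extreme discrepancy of the lattice point set `({n a_i / N})_i`, `n < N`. -/
noncomputable def Disc (d N : ℕ) (a : Fin d → ℕ) : ℝ :=
  sSup {x : ℝ | ∃ u v : Fin d → ℝ, (∀ i, 0 ≤ u i ∧ u i ≤ v i ∧ v i ≤ 1) ∧
    x = |(((range N).filter (fun n : ℕ => ∀ i, u i ≤ Int.fract (((n * a i : ℕ) : ℝ) / (N : ℝ)) ∧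
      Int.fract (((n * a i : ℕ) : ℝ) / (N : ℝ)) < v i)).card : ℝ) / (N : ℝ) - ∏ i, (v i - u i)|}

/-- `k` is in the dual lattice of `(N, a)`. -/
def Dual (d N : ℕ) (a : Fin d → ℕ) (k : Fin d → ℤ) : Prop := (N : ℤ) ∣ ∑ i, (a i : ℤ) * k i

/-- any two different members of `K` are `R`-separated in every coordinate -/
def Sep (d R : ℕ) (K : Finset (Fin d → ℤ)) : Prop :=
  ∀ k ∈ K, ∀ k' ∈ K, k ≠ k' → ∀ i, (R : ℤ) * |k' i| ≤ |k i| ∨ (R : ℤ) * |k i| ≤ |k' i|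

/-- `K` is a finite set of dual vectors with nonzero coordinates of size at most `N/8`, any two
of which are `R`-separated in every coordinate. -/
def GoodSet (d R N : ℕ) (a : Fin d → ℕ) (K : Finset (Fin d → ℤ)) : Prop :=
  (∀ k ∈ K, Dual d N a k ∧ ∀ i, k i ≠ 0 ∧ 8 * |k i| ≤ (N : ℤ)) ∧ Sep d R K

/-- The weight `∑_{k ∈ K} N / ∏ |k_i|`. -/
noncomputable def wt (d N : ℕ) (K : Finset (Fin d → ℤ)) : ℝ :=
  ∑ k ∈ K, (N : ℝ) / ∏ i, |(k i : ℝ)|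

/-- there is a good set of weight at least `s` -/
def Good (d R N : ℕ) (a : Fin d → ℕ) (s : ℝ) : Prop :=
  ∃ K : Finset (Fin d → ℤ), GoodSet d R N a K ∧ s ≤ wt d N K

/-- `e(t/N)` -/
noncomputable def ee (N : ℕ) (t : ℤ) : ℂ :=
  Complex.exp (2 * (Real.pi : ℂ) * Complex.I * ((t : ℂ) / (N : ℂ)))

/-- `∑_{y<m} e(ν y/N)` -/
noncomputable def SS (N m : ℕ) (ν : ℤ) : ℂ := ∑ y ∈ range m, ee N (ν * (y : ℤ))

/-- number of `n < N` with `(n a_i - x_i) mod N < m_i` for all `i` -/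
def cnt (d N : ℕ) (a x m : Fin d → ℕ) : ℕ :=
  ((range N).filter (fun n : ℕ => ∀ i, (n * a i + (N - x i)) % N < m i)).card

/-- the local discrepancy `G(x,m)` -/
noncomputable def GG (d N : ℕ) (a x m : Fin d → ℕ) : ℝ :=
  (cnt d N a x m : ℝ) - (N : ℝ) * ∏ i, ((m i : ℝ) / (N : ℝ))

/-! ## Part B: the Riesz product -/

/-- DISC. Basic facts on the discrepancy: every box gives a lower bound, and `1/N ≤ Disc`.

PROOF. (a) The set in the definition of `Disc` is bounded above by `1`: the count divided by `N`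
is in `[0,1]` (for `N = 0` it is `0`), the product of numbers in `[0,1]` is in `[0,1]`, so the
absolute value of the difference is at most `1`. Use `le_csSup`.
(b) Take `u = 0`, `v_i = η` with `0 < η ≤ 1` (`1 ≤ d`). The point `n = 0` (`fract 0 = 0`) lies in
the box, so the value is `≥ 1/N - η^d ≥ 1/N - η`. Hence `Disc ≥ 1/N - η` for all `η ∈ (0,1]`;
let `η → 0` (`le_of_forall_pos_le_add`). -/
def S_DISC : Prop := ∀ (d N : ℕ) (a : Fin d → ℕ), 1 ≤ N →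
  (∀ u v : Fin d → ℝ, (∀ i, 0 ≤ u i ∧ u i ≤ v i ∧ v i ≤ 1) →
    |(((range N).filter (fun n : ℕ => ∀ i, u i ≤ Int.fract (((n * a i : ℕ) : ℝ) / (N : ℝ)) ∧
      Int.fract (((n * a i : ℕ) : ℝ) / (N : ℝ)) < v i)).card : ℝ) / (N : ℝ) - ∏ i, (v i - u i)|
      ≤ Disc d N a) ∧
  (1 ≤ d → 1 / (N : ℝ) ≤ Disc d N a)

/-- ARC. A cyclic box has discrepancy at most `2^d N Disc`.

PROOF. `fract (n a_i / N) = ((n a_i) mod N)/N`. Write `r_i = (n a_i) mod N`. Then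
`(n a_i + (N - x_i)) mod N < m_i` iff `r_i ∈ [x_i, min (x_i+m_i) N)` or `r_i ∈ [0, x_i+m_i-N)`
(natural subtraction; if `x_i + m_i ≤ N` the second interval is empty; the two intervals are
disjoint since `m_i ≤ N`) and the two intervals have total length `m_i`: for `x_i ≤ r_i` the
residue is `r_i - x_i`, for `r_i < x_i` it is `r_i + N - x_i`. So for `s ∈ {0,1}^d` let `B_s` be
the box with sides `[u_i, v_i)`, `(u_i,v_i) = (x_i/N, min (x_i+m_i) N / N)` if `s_i = 0` and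
`(0, (x_i+m_i-N)/N)` if `s_i = 1`. The indicator of the event is `∏_i (1_{0,i} + 1_{1,i})
= ∑_s ∏_i 1_{s_i,i}` (`Finset.prod_univ_sum` / `Fintype.prod_add` or induction), and
`∏_i (m_i/N) = ∏_i (|I_{0,i}| + |I_{1,i}|) = ∑_s ∏ |I_{s_i,i}|`. Hence
`GG = ∑_s N (#(B_s)/N - vol B_s)` and each summand is at most `N Disc` in absolute value by
`S_DISC`. -/
def S_ARC : Prop := ∀ (d N : ℕ) (a x m : Fin d → ℕ), 1 ≤ N → (∀ i, x i < N) → (∀ i, m i ≤ N) →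
  |GG d N a x m| ≤ 2 ^ d * ((N : ℝ) * Disc d N a)

/-- FOUR. Fourier coefficients of `x ↦ GG(x,m)` at dual frequencies.

PROOF. `ee N` is additive: `ee (s+t) = ee s * ee t`, and `ee t = 1` iff `N ∣ t`, `ee` is
`N`-periodic. (1) is the product over `i` of one-dimensional sums
`∑_{x<N} ee (ν_i x)`, one of which vanishes (geometric sum: `N ∤ ν_i`), by
`Finset.prod_univ_sum`.
(2) For fixed `n`: `∑_x ∏_i 1[(n a_i + (N - x_i)) % N < m_i] ee (ν_i x_i) = ∏_i ∑_{x<N} (..)`.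
For fixed `i` put `y = (n a_i + (N - x)) % N`, a bijection of `{0..N-1}`, with
`x ≡ n a_i - y mod N`: the sum over `x` is `∑_{y<m_i} ee (ν_i (n a_i - y))
= ee (ν_i n a_i) * SS N m_i (-ν_i)` (`m_i ≤ N`). Product over `i`:
`ee (n ∑ ν_i a_i) ∏ SS N m_i (-ν_i) = ∏ SS N m_i (-ν_i)` because `N ∣ ∑ a_i ν_i`. Sum over
`n < N`. The constant `N ∏ (m_i/N)` contributes `0` by (1).
(3) Same with `ν = 0`: `∑_x cnt = N ∏ m_i` and `∑_x N ∏ (m_i/N) = N^d N ∏ m_i / N^d`. -/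
def S_FOUR : Prop := ∀ (d N : ℕ) (a m : Fin d → ℕ) (ν : Fin d → ℤ), 1 ≤ N → (∀ i, m i ≤ N) →
  ((∃ i, ¬ (N : ℤ) ∣ ν i) → ∑ x : Fin d → Fin N, ee N (∑ i, ν i * ((x i : ℕ) : ℤ)) = 0) ∧
  ((∃ i, ¬ (N : ℤ) ∣ ν i) → Dual d N a ν →
    ∑ x : Fin d → Fin N, ((GG d N a (fun i => (x i : ℕ)) m : ℝ) : ℂ) *
      ee N (∑ i, ν i * ((x i : ℕ) : ℤ)) = (N : ℂ) * ∏ i, SS N (m i) (-(ν i))) ∧
  ∑ x : Fin d → Fin N, GG d N a (fun i => (x i : ℕ)) m = 0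

/-- SM. Bounds for geometric sums.

PROOF. Let `q = e(ν/N) ≠ 1` (`0 < |ν| ≤ N/2`). `SS = (q^m - 1)/(q - 1)` and
`|e(θ) - 1| = 2 |sin (π θ)|`, so `‖SS N m ν‖ = |sin (π m ν/N)| / |sin (π ν/N)|`.
Upper bound: numerator `≤ 1`, and `|sin (π t)| ≥ 2|t|` for `|t| ≤ 1/2` (`Real.mul_le_sin`).
Lower bound: `|sin (π ν/N)| ≤ π |ν|/N` and `|sin| ≥ sin²`, so
`‖SS N m ν‖ ≥ N/(π|ν|) sin²(π m ν/N)`, and `∑_{m<N} sin²(π m ν/N) = ∑ (1 - cos (2π m ν/N))/2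
= N/2` since `∑_{m<N} e(m ν/N) = 0` (`N ∤ ν`). -/
def S_SM : Prop := ∀ (N : ℕ) (ν : ℤ), 1 ≤ N → ν ≠ 0 → 2 * |ν| ≤ (N : ℤ) →
  (∀ m : ℕ, ‖SS N m ν‖ ≤ (N : ℝ) / (2 * |(ν : ℝ)|)) ∧
  (N : ℝ) ^ 2 / (2 * Real.pi * |(ν : ℝ)|) ≤ ∑ m ∈ range N, ‖SS N m ν‖

/-- LAC. Signed sums of a lacunary family of integers.

PROOF. Let `j₀ ∈ J` have the largest `|f j|` (if `J` is empty all is clear). The other members,
listed by decreasing size, are at most `|f j₀|/R, |f j₀|/R², ...`, so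
`∑_{j ≠ j₀} |f j| ≤ |f j₀|/(R-1) ≤ |f j₀|/2`. (Induction on the cardinality: claim
`(R-1) ∑_{j∈J} |f j| ≤ R max |f|`; remove the maximal element `j₀`; the new maximum `μ` satisfies
`R μ ≤ |f j₀|` — the other alternative `R |f j₀| ≤ μ ≤ |f j₀|` is impossible as `R ≥ 3`,
`f j₀ ≠ 0` — so `(R-1)∑ ≤ (R-1)|f j₀| + R μ ≤ R |f j₀|`.) Therefore
`|∑ ε f| ≥ |f j₀| - |f j₀|/2 ≥ |f j|/2` for all `j` and `|∑ ε f| ≤ (3/2)|f j₀| ≤ 3N/16`. -/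
def S_LAC : Prop := ∀ (ι : Type) (J : Finset ι) (f s : ι → ℤ) (R N : ℕ), 3 ≤ R → 1 ≤ N →
  (∀ j ∈ J, f j ≠ 0 ∧ 8 * |f j| ≤ (N : ℤ) ∧ (s j = 1 ∨ s j = -1)) →
  (∀ j ∈ J, ∀ j' ∈ J, j ≠ j' → (R : ℤ) * |f j'| ≤ |f j| ∨ (R : ℤ) * |f j| ≤ |f j'|) →
  (∀ j ∈ J, |f j| ≤ 2 * |∑ i ∈ J, s i * f i|) ∧ 2 * |∑ i ∈ J, s i * f i| < (N : ℤ)

/-- REST. The sum over subsets with at least two elements.

PROOF. Only coordinate `0` of the separation is used. By `Sep` and `k_0 ≠ 0`, `R ≥ 3`, the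
numbers `|k_0|`, `k ∈ K`, are distinct; if `k, k'` are different with `|k_0| < |k'_0|` then
`R |k_0| ≤ |k'_0|`. Put `v(k) = ∏_{i} 1/|k_i|`.
For `J ⊆ K`, `|J| ≥ 2`, let `k` be its member with the smallest `|k_0|`, `k'` the one with the
largest. Then `∏_i 1/sup_J |k_i| ≤ (|k_0|/|k'_0|) v(k)` (for `i ≠ 0` use `sup ≥ |k_i|`).
For a fixed `k` let `K_k = {k' ∈ K : |k'_0| > |k_0|}`; the `J` with smallest member `k` are
`{k} ∪ J'`, `∅ ≠ J' ⊆ K_k`, so it is enough that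
`∑_{∅ ≠ J' ⊆ L} |k_0|/max_{J'} |k'_0| ≤ 1/(R-2)` for every set `L` of vectors whose first
coordinates are `R`-separated and all at least `R |k_0|` in absolute value. Induction on `|L|`
(for all `k_0` at once, with the bound `U(L) := ∑_{∅≠J'⊆L} 1/max_{J'}|k'_0|
≤ 1/((R-2) μ)`, where `μ > 0` is any number with `R μ ≤ |k'_0|` for all `k' ∈ L`): let `k₁` be
the smallest member of `L`. Subsets not containing `k₁` and nonempty: sum `U(L∖k₁)`; subsets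
`{k₁} ∪ J''`, `J'' ≠ ∅`: sum `U(L∖k₁)`; `{k₁}`: `1/|k₁,0|`. So with `μ' = |k₁,0| ≥ R μ`,
`U(L) ≤ 2/((R-2) μ') + 1/μ' = R/((R-2) μ') ≤ 1/((R-2) μ)`. -/
def S_REST : Prop := ∀ (d R : ℕ) (K : Finset (Fin (d + 1) → ℤ)), 3 ≤ R →
  (∀ k ∈ K, ∀ i, k i ≠ 0) → Sep (d + 1) R K →
  ∑ J ∈ K.powerset.filter (fun J => 2 ≤ J.card),
      ∏ i, (1 / ((J.sup (fun k => (k i).natAbs) : ℕ) : ℝ))
    ≤ 1 / ((R : ℝ) - 2) * ∑ k ∈ K, ∏ i, (1 / |(k i : ℝ)|)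

/-- RP. Abstract Riesz product inequality.

PROOF. For `k ∈ K` choose `w_k`, `|w_k| = 1`, with `w_k ∑_x g(x) χ_k(x) = ‖∑_x g χ_k‖`. Let
`z_k(x) = w_k χ_k(x)` (modulus 1) and `F(x) = ∏_{k∈K} (1 + Re z_k(x)) ≥ 0`.
`F = ∑_{J ⊆ K} ∏_{k∈J} Re z_k` (`Finset.prod_one_add` or `Finset.prod_add`), and
`∏_{k∈J} Re z_k = 2^{-|J|} ∏_{k∈J} (z_k + conj z_k)
= 2^{-|J|} ∑_{T⊆J} (∏_T w_k ∏_{J∖T} conj w_k) (∏_T χ_k)(∏_{J∖T} conj χ_k)` (`Finset.prod_add`).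
So `∑_x ∏_{k∈J} Re z_k = 0` for `J ≠ ∅` and `∑_x F = card X`; for `|J| ≥ 2`
`|∑_x g ∏_{k∈J} Re z_k| ≤ 2^{-|J|} ∑_T b(J) = b(J)`; for `J = {k}` the sum is
`Re (w_k ∑ g χ_k) = ‖∑ g χ_k‖`; for `J = ∅` it is `∑ g = 0`. Therefore
`∑_k ‖∑ g χ_k‖ - ∑_{|J|≥2} b(J) ≤ ∑_x g F ≤ Mx ∑_x F = card X * Mx` (note `F ≥ 0`). -/
def S_RP : Prop := ∀ (X ι : Type) [Fintype X] (K : Finset ι) (χ : ι → X → ℂ)
  (g : X → ℝ) (Mx : ℝ) (b : Finset ι → ℝ),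
  (∀ k ∈ K, ∀ x, ‖χ k x‖ = 1) → (∀ x, |g x| ≤ Mx) → ∑ x, g x = 0 →
  (∀ J ⊆ K, J.Nonempty → ∀ T ⊆ J,
    ∑ x, (∏ k ∈ T, χ k x) * (∏ k ∈ J \ T, (starRingEnd ℂ) (χ k x)) = 0) →
  (∀ J ⊆ K, 2 ≤ J.card → ∀ T ⊆ J,
    ‖∑ x, (g x : ℂ) * ((∏ k ∈ T, χ k x) * (∏ k ∈ J \ T, (starRingEnd ℂ) (χ k x)))‖ ≤ b J) →
  ∑ k ∈ K, ‖∑ x, (g x : ℂ) * χ k x‖
    ≤ (Fintype.card X : ℝ) * Mx + ∑ J ∈ K.powerset.filter (fun J => 2 ≤ J.card), b J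

/-- RM (uses `S_ARC S_FOUR S_SM S_LAC S_RP`). The Riesz product for a fixed shape `m`.

PROOF. Apply `S_RP` with `X = (Fin d → Fin N)`, `ι = (Fin d → ℤ)`,
`χ_k(x) = ee N (∑ k_i x_i)`, `g = GG(·,m)`, `Mx = 2^d N Disc` (`S_ARC`),
`b(J) = N^(d+1) ∏_i 1/sup_J |k_i|`. `(∏_T χ_k)(∏_{J∖T} conj χ_k) = ee N (∑ n_i x_i)` with
`n = ∑_{k∈J} s_k k`, `s_k = 1` on `T`, `-1` on `J∖T`. By `S_LAC` (for each coordinate `i`, with
`f k = k i`), `|k_i| ≤ 2|n_i|` for all `k ∈ J` and `2|n_i| < N`; so `n_i ≠ 0` and `N ∤ n_i` (for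
`J ≠ ∅`; `1 ≤ d`), `n` is dual (sum of dual vectors), and by `S_FOUR` the two hypotheses hold:
`‖∑ g χ‖ = N ∏ ‖SS N m_i (-n_i)‖ ≤ N ∏ N/(2|n_i|) ≤ N ∏ N/sup_J |k_i|` (`S_SM`,
`sup_J |k_i| ≤ 2|n_i|`). Finally `‖∑ g χ_k‖ = N ∏ ‖SS N m_i (-k_i)‖`, `card X = N^d`. -/
def S_RM : Prop := ∀ (d R N : ℕ) (a m : Fin (d + 1) → ℕ) (K : Finset (Fin (d + 1) → ℤ)),
  3 ≤ R → 1 ≤ N → GoodSet (d + 1) R N a K → (∀ i, m i ≤ N) →
  ∑ k ∈ K, (N : ℝ) * ∏ i, ‖SS N (m i) (-(k i))‖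
    ≤ (N : ℝ) ^ (d + 1) * (2 ^ (d + 1) * ((N : ℝ) * Disc (d + 1) N a)) +
      ∑ J ∈ K.powerset.filter (fun J => 2 ≤ J.card),
        (N : ℝ) ^ (d + 2) * ∏ i, (1 / ((J.sup (fun k => (k i).natAbs) : ℕ) : ℝ))

/-- RIESZ (uses `S_RM S_SM S_REST`). Lower bound for the discrepancy from a good set.

PROOF. Write `D = d+1`. Let `K` be a good set with `s ≤ wt K`. Average `S_RM` over
`m ∈ {0..N-1}^D`: `∑_m ∏_i ‖SS N m_i (-k_i)‖ = ∏_i ∑_{m<N} ‖SS N m (-k_i)‖ ≥ ∏_i N²/(2π|k_i|)`.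
Dividing by `N^(2D+1)`: `(2π)^{-D} ∑_k ∏ 1/|k_i| ≤ 2^D Disc + ∑_{|J|≥2} ∏ 1/sup_J|k_i|
≤ 2^D Disc + (1/(R-2)) ∑_k ∏ 1/|k_i|` and `R - 2 ≥ 2 (2π)^D`, so
`2^D Disc ≥ (1/2)(2π)^{-D} ∑_k ∏ 1/|k_i| = (1/2)(2π)^{-D} wt/N`. Multiply by `N / 2^D`. -/
def S_RIESZ : Prop := ∀ (d R N : ℕ) (a : Fin (d + 1) → ℕ) (s : ℝ),
  2 + 2 * (2 * Real.pi) ^ (d + 1) ≤ (R : ℝ) → 1 ≤ N → Good (d + 1) R N a s →
  1 / 2 * (1 / (4 * Real.pi) ^ (d + 1)) * s ≤ (N : ℝ) * Disc (d + 1) N a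

/-! ## Part C: reduction to the core statement -/

/-- `α` is primitive modulo `g` -/
def prim (e g : ℕ) (α : Fin e → ℕ) : Prop := Nat.Coprime (Finset.univ.gcd α) g

/-- the vector `(g a₀, α + g b)` -/
def vec (e g a0 : ℕ) (α b : Fin e → ℕ) : Fin (e + 1) → ℕ :=
  Fin.cons (g * a0) (fun i => α i + g * b i)

/-- the core statement in dimension `e+1` -/
def CORE (e : ℕ) : Prop := ∀ (R : ℕ) (ε : ℝ), 0 < ε → ∃ c γ : ℝ, ∃ N0 : ℕ, 0 < c ∧ 0 < γ ∧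
  ∀ (g M a0 : ℕ) (α : Fin e → ℕ), N0 ≤ g * M → (g : ℝ) ≤ ((g * M : ℕ) : ℝ) ^ γ →
    Nat.Coprime a0 M → prim e g α →
    ((univ.filter (fun b : Fin e → Fin M => ¬ Good (e + 1) R (g * M)
      (vec e g a0 α (fun i => (b i : ℕ)))
      (c * (Real.log ((g * M : ℕ) : ℝ)) ^ e * Real.log (Real.log ((g * M : ℕ) : ℝ))))).card : ℝ)
      ≤ ε * (M : ℝ) ^ e

/-- GCD. Few residues have a large common factor with `N`.

PROOF. `∑_{a<N} log gcd(a,N) = ∑_{a<N} ∑_{q ∣ gcd(a,N)} Λ(q) = ∑_{q∣N} Λ(q) N/q`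
(`ArithmeticFunction.vonMangoldt_sum`; `#{a<N : q ∣ a} = N/q` for `q ∣ N`). For real/natural
`y ≥ 1`: `∑_{q∣N} Λ(q)/q ≤ ∑_{q≤y} log q + (1/y) ∑_{q∣N} Λ(q) ≤ y log y + (log N)/y`
(crudely `Λ(q)/q ≤ log q`). Hence by Markov, the number of `a < N` with `gcd > N^γ`, i.e.
`log gcd ≥ γ log N`, is at most `N (y log y + (log N)/y)/(γ log N)`. Choose `y` with
`1/(y γ) ≤ ε/2` and then `N` so large that `y log y/(γ log N) ≤ ε/2`. -/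
def S_GCD : Prop := ∀ γ ε : ℝ, 0 < γ → 0 < ε → ∃ N0 : ℕ, ∀ N : ℕ, N0 ≤ N →
  (((range N).filter (fun a => (N : ℝ) ^ γ < (Nat.gcd a N : ℝ))).card : ℝ) ≤ ε * (N : ℝ)

/-- primitive tuples -/
def PRIMe (e : ℕ) : Prop := ∀ (R : ℕ) (ε : ℝ), 0 < ε → ∃ c : ℝ, ∃ N0 : ℕ, 0 < c ∧
  ∀ N : ℕ, N0 ≤ N →
    ((univ.filter (fun a : Fin (e + 1) → Fin N => prim (e + 1) N (fun i => (a i : ℕ)) ∧
      ¬ Good (e + 1) R N (fun i => (a i : ℕ))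
        (c * (Real.log (N : ℝ)) ^ e * Real.log (Real.log (N : ℝ))))).card : ℝ)
      ≤ ε * (N : ℝ) ^ (e + 1)

/-- FIB. Fibering over the residue vector modulo `g = gcd(a_0, N)`.

PROOF. `N = g M`. For `a' ∈ [0,N)^e` let `α_i = a'_i mod g`, `b_i = a'_i / g ∈ [0,M)`; the map
`a' ↦ (α, b)` is injective and `Fin.cons a_0 a' = vec e g (a_0/g) α b` (`g * (a_0/g) = a_0`,
`α_i + g b_i = a'_i`). If `(a_0, a')` is primitive mod `N` then `α` is primitive mod `g`: a prime `p`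
dividing `g` and all `α_i` divides `a_0`, `N` and all `a'_i = α_i + g b_i`. -/
def S_FIB : Prop := ∀ (e N a0 : ℕ) (P : (Fin (e + 1) → ℕ) → Prop), 1 ≤ N →
  (univ.filter (fun a' : Fin e → Fin N => prim (e + 1) N (Fin.cons a0 (fun i => (a' i : ℕ))) ∧
      P (Fin.cons a0 (fun i => (a' i : ℕ))))).card
    ≤ ∑ α ∈ univ.filter (fun α : Fin e → Fin (Nat.gcd a0 N) =>
          prim e (Nat.gcd a0 N) (fun i => (α i : ℕ))),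
        (univ.filter (fun b : Fin e → Fin (N / Nat.gcd a0 N) =>
          P (vec e (Nat.gcd a0 N) (a0 / Nat.gcd a0 N) (fun i => (α i : ℕ))
            (fun i => (b i : ℕ))))).card

/-- PRIM (uses `S_GCD S_FIB`). From the core statement to primitive tuples.

PROOF. Given `R, ε` take `c, γ, N0` from `CORE e` for `ε/2`, and `N0'` from `S_GCD` for
`γ, ε/2`. Let `N ≥ max` (and `≥ 1`). For `a = (a_0, a')` let `g = gcd(a_0, N)`, `N = g M`,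
`a_0 = g a0`, `gcd(a0, M) = 1` (if `a_0 = 0`: `g = N`, `M = 1`, `a0 = 0`). Split by `a_0`.
If `g > N^γ`: at most `(ε/2) N` values of `a_0`, hence at most `(ε/2) N^(e+1)` tuples.
If `g ≤ N^γ`: by `S_FIB` (with `P = ` not good) and `CORE`, the number of bad `a'` for this `a_0` is at
most `∑_α (ε/2) M^e ≤ g^e (ε/2) M^e = (ε/2) N^e`; sum over the at most `N` values of `a_0`.
(Fibre `Fin (e+1) → Fin N` over the first coordinate with `Fin.consEquiv`/`Fin.insertNthEquiv`.) -/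
def S_PRIM : Prop := ∀ e : ℕ, 1 ≤ e → CORE e → PRIMe e

/-- all tuples -/
def PROBe (e : ℕ) : Prop := ∀ (R : ℕ) (ε : ℝ), 0 < ε → ∃ c : ℝ, ∃ N0 : ℕ, 0 < c ∧
  ∀ N : ℕ, N0 ≤ N →
    ((univ.filter (fun a : Fin (e + 1) → Fin N => ¬ Good (e + 1) R N (fun i => (a i : ℕ))
        (c * (Real.log (N : ℝ)) ^ e * Real.log (Real.log (N : ℝ))))).card : ℝ)
      ≤ ε * (N : ℝ) ^ (e + 1)

/-- HOM. Homothety.

PROOF. The dual lattices agree: `h N ∣ ∑ h a_i k_i ↔ N ∣ ∑ a_i k_i` (`h ≥ 1`). `8|k_i| ≤ N ≤ h N`.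
The weight of the same `K` is multiplied by `h`. -/
def S_HOM : Prop := ∀ (d R N h : ℕ) (a : Fin d → ℕ) (s : ℝ), 1 ≤ h → Good d R N a s →
  Good d R (h * N) (fun i => h * a i) ((h : ℝ) * s)

/-- PSUM. Splitting the tuples according to the common factor.

PROOF. For `a ∈ [0,N)^d` let `h = gcd(a_1,...,a_d,N)`, a divisor of `N`, `a = h a'` with
`a' ∈ [0,N/h)^d`, `gcd(a', N/h) = 1`; for given `h`, `a'` determines `a`. -/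
def S_PSUM : Prop := ∀ (d N : ℕ) (P : (Fin d → ℕ) → Prop), 1 ≤ N →
  (univ.filter (fun a : Fin d → Fin N => P (fun i => (a i : ℕ)))).card
    ≤ ∑ h ∈ N.divisors, (univ.filter (fun a' : Fin d → Fin (N / h) =>
        prim d (N / h) (fun i => (a' i : ℕ)) ∧ P (fun i => h * (a' i : ℕ)))).card

/-- PASY. Slow variation.

PROOF. For `1 ≤ h ≤ H`, `h ∣ N`: `N/h ≥ N/H`, `log (N/h) ≥ log N - log H ≥ (1-τ) log N` and
`loglog (N/h) ≥ loglog N + log(1-τ) ≥ (1-τ) loglog N` for `N` large; choose `τ` with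
`(1-τ)^(e+1) ≥ 1/2`. -/
def S_PASY : Prop := ∀ (e H : ℕ), ∃ N0 : ℕ, ∀ N : ℕ, N0 ≤ N → ∀ h : ℕ, 1 ≤ h → h ≤ H → h ∣ N →
  0 ≤ (Real.log (N : ℝ)) ^ e * Real.log (Real.log (N : ℝ)) ∧
  (1 / 2) * ((Real.log (N : ℝ)) ^ e * Real.log (Real.log (N : ℝ))) ≤
    (Real.log ((N / h : ℕ) : ℝ)) ^ e * Real.log (Real.log ((N / h : ℕ) : ℝ))

/-- PROB (uses `S_HOM S_PSUM S_PASY`). From primitive tuples to all tuples.

PROOF. Let `h = gcd(a_0,...,a_e,N)`, `N = h N'`, `a = h a'` with `a' ∈ [0,N')^(e+1)` primitive mod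
`N'`. The dual lattices agree: `N ∣ ∑ a_i k_i ↔ N' ∣ ∑ a'_i k_i`. A good set for `(N',a')` is one for
`(N,a)` (`8|k_i| ≤ N' ≤ N`), with weight multiplied by `h`. Given `ε`, let `H` be a natural number
with `1/H ≤ ε/4` and let `c', N0'` be from `PRIMe` for `ε/4`; put `c = c'/2`. For `N ≥ N0` (large in
terms of `H, N0', e`): if `h ≤ H` then `N' ≥ N/H ≥ N0'` and
`c (log N)^e loglog N ≤ c' (log N')^e loglog N'` (because `log (N/H)/log N → 1` and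
`loglog (N/H)/loglog N → 1`), so a bad `a` with gcd `h` gives a bad primitive `a'` mod `N/h`: at
most `(ε/4) (N/h)^(e+1)` of them (`a'` determines `a`), and
`∑_h (N/h)^(e+1) ≤ N^(e+1) ∑ 1/h² ≤ 2 N^(e+1)`. If `h > H`: at most `(N/h)^(e+1)` tuples have all
coordinates divisible by `h ∣ N`, and `∑_{h>H} (N/h)^(e+1) ≤ N^(e+1) ∑_{h>H} 1/h² ≤ N^(e+1)/H`.
Total `≤ (ε/2 + ε/4) N^(e+1)`. -/
def S_PROB : Prop := ∀ e : ℕ, 1 ≤ e → PRIMe e → PROBe e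

/-! ## Part D: the core statement for `e ≥ 2` -/

/-- there is `k ∈ (A, A+L]` such that `(k, l)` is a dual vector of `(g a₀, α + g b)` mod `g M` -/
def Ev (e g M a0 : ℕ) (α b l : Fin e → ℕ) (A L : ℕ) : Prop :=
  ∃ k : ℕ, A < k ∧ k ≤ A + L ∧ g * M ∣ g * a0 * k + ∑ i, (α i + g * b i) * l i

/-- INTV. One-dimensional count.

PROOF. `u` an inverse of `a0` mod `M`; the condition is `k ≡ -u (c + v b) mod M`. Count pairs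
`(b,k)`, `b < M`, `k ∈ (A,A+L]` with `M ∣ a0 k + c + v b`; for each `b` there is at most one `k`
since `L ≤ M`. For each `k` the congruence `v b ≡ -(a0 k + c) mod M` has `h = gcd(v,M)` solutions
`b < M` if `h ∣ a0 k + c`, and none otherwise. As `gcd(a0,h) = 1` the condition
`h ∣ a0 k + c` selects exactly one residue class of `k` mod `h`, so the number of `k ∈ (A,A+L]` is
`⌊L/h⌋` or `⌈L/h⌉`, and the count is between `h ⌊L/h⌋ ≥ L - h` and `h ⌈L/h⌉ ≤ L + h`. -/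
def S_INTV : Prop := ∀ (M v c a0 A L : ℕ), 1 ≤ M → Nat.Coprime a0 M → L ≤ M →
  ((range M).filter (fun b => ∃ k : ℕ, A < k ∧ k ≤ A + L ∧ M ∣ a0 * k + c + v * b)).card
      ≤ L + Nat.gcd v M ∧
  L ≤ ((range M).filter (fun b => ∃ k : ℕ, A < k ∧ k ≤ A + L ∧ M ∣ a0 * k + c + v * b)).card
      + Nat.gcd v M

/-- SINGLE (uses `S_INTV`). Number of `b` for which a given `l` occurs.

PROOF. `α·l = g λ`; `g M ∣ g a0 k + ∑ (α_i + g b_i) l_i` iff `M ∣ a0 k + λ + ∑ b_i l_i`. Fix all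
`b_i`, `i ≠ i0` (there are `M^(e-1)` choices) and apply `S_INTV` with `v = l i0`,
`c = λ + ∑_{i≠i0} b_i l_i`, `gcd(l i0, M) ≤ l i0`. (Fibre the count over the other coordinates, e.g.
with `Equiv.funSplitAt` / `Fin.insertNthEquiv`, or `Finset.card_eq_sum_card_fiberwise`.) -/
def S_SINGLE : Prop := ∀ (e g M a0 : ℕ) (α l : Fin e → ℕ) (A L : ℕ) (i0 : Fin e),
  1 ≤ g → 1 ≤ M → Nat.Coprime a0 M → L ≤ M → 1 ≤ l i0 → g ∣ ∑ i, α i * l i →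
  (univ.filter (fun b : Fin e → Fin M => Ev e g M a0 α (fun i => (b i : ℕ)) l A L)).card
      ≤ (L + l i0) * M ^ (e - 1) ∧
  L * M ^ (e - 1) ≤
    (univ.filter (fun b : Fin e → Fin M => Ev e g M a0 α (fun i => (b i : ℕ)) l A L)).card
      + l i0 * M ^ (e - 1)

/-- PAIR2. Two linear conditions in two variables.

PROOF. For integers `(k,k')` let `f(k,k')` be the number of `(x,y) ∈ (Z/M)²` with
`M ∣ a0 k + c + p x + q y`, `M ∣ a0 k' + c' + p' x + q' y`. The count is at most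
`∑_{k ∈ (A,A+L]} ∑_{k' ∈ (A',A'+L']} f(k,k')`. `f` is `M`-periodic in both variables, and with
`D = p q' - q p'` it is `D`-periodic in both: if `(x,y)` is counted for `(k,k')` then
`(x - a0 q' s + a0 q s', y + a0 p' s - a0 p s')` is counted for `(k + D s, k' + D s')`
(Cramer). So `f` is `D'`-periodic in both variables, `D' = gcd(D,M) ≥ 1`, and
`∑_{k,k' mod M} f = M²` (for every `(x,y)` there is exactly one `k` and one `k'` mod `M`, as `a0` is a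
unit), so the sum of `f` over one period `D' × D'` is `D'^2`. The intervals of lengths `L, L'` are
covered by `⌈L/D'⌉`, `⌈L'/D'⌉` periods: total
`≤ ⌈L/D'⌉ ⌈L'/D'⌉ D'^2 ≤ (L + D')(L' + D') ≤ (L + Dm)(L' + Dm)`. -/
def S_PAIR2 : Prop := ∀ (M a0 : ℕ) (c c' p q p' q' : ℤ) (A L A' L' Dm : ℕ), 1 ≤ M →
  Nat.Coprime a0 M → p * q' - q * p' ≠ 0 → |p * q' - q * p'| ≤ (Dm : ℤ) →
  ((range M ×ˢ range M).filter (fun z : ℕ × ℕ =>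
    (∃ k : ℕ, A < k ∧ k ≤ A + L ∧ (M : ℤ) ∣ a0 * k + c + p * z.1 + q * z.2) ∧
    (∃ k : ℕ, A' < k ∧ k ≤ A' + L' ∧ (M : ℤ) ∣ a0 * k + c' + p' * z.1 + q' * z.2))).card
    ≤ (L + Dm) * (L' + Dm)

/-- PAIR (uses `S_PAIR2`). Number of `b` for which two non-parallel `l, l'` occur.

PROOF. If `Ev … l` holds then `g ∣ α·l`; if `g ∤ α·l` or `g ∤ α·l'` the set is empty. Otherwise put
`λ = α·l/g`, `λ' = α·l'/g`, fix the `M^(e-2)` choices of the other coordinates and apply `S_PAIR2` in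
the variables `(b_p, b_q)` with coefficients `(l_p,l_q)`, `(l'_p,l'_q)`. -/
def S_PAIR : Prop := ∀ (e g M a0 : ℕ) (α l l' : Fin e → ℕ) (A L A' L' Dm : ℕ) (p q : Fin e),
  1 ≤ g → 1 ≤ M → Nat.Coprime a0 M → p ≠ q →
  (l p : ℤ) * l' q - l q * l' p ≠ 0 → |(l p : ℤ) * l' q - l q * l' p| ≤ (Dm : ℤ) →
  (univ.filter (fun b : Fin e → Fin M => Ev e g M a0 α (fun i => (b i : ℕ)) l A L ∧
    Ev e g M a0 α (fun i => (b i : ℕ)) l' A' L')).card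
    ≤ (L + Dm) * (L' + Dm) * M ^ (e - 2)

/-- RES. Number of residue vectors orthogonal to a primitive vector.

PROOF. The homomorphism `(Z/g)^e → Z/g`, `r ↦ ∑ α_i r_i`, is surjective since `gcd(α, g) = 1`
(Bezout: `Finset.gcd` is an integer combination of the `α_i`), so its kernel has `g^e/g` elements
(fibres over all residues have the same size by translation, they sum to `g^e`). -/
def S_RES : Prop := ∀ (e g : ℕ) (α : Fin e → ℕ), 1 ≤ e → 1 ≤ g → prim e g α →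
  (univ.filter (fun r : Fin e → Fin g => g ∣ ∑ i, α i * (r i : ℕ))).card = g ^ (e - 1)

/-- LCNT (uses `S_RES`). Lattice points in a box with one congruence.

PROOF. Split by the residue vector `r = l mod g` (`g^(e-1)` admissible ones by `S_RES`). The number of
`x ∈ [u_i, u_i + n_i)` with `x ≡ r_i mod g` is between `⌊n_i/g⌋ ≥ (n_i + 1 - g)/g` and
`⌈n_i/g⌉ ≤ (n_i + g - 1)/g` (`Nat.Ico_filter_modEq_card` or `Nat.count_modEq_card`). Multiply over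
`i` and sum over `r`: the count times `g^e` is between `g^(e-1) ∏ (n_i - g)` and
`g^(e-1) ∏ (n_i + g)`. -/
def S_LCNT : Prop := ∀ (e g : ℕ) (α u n : Fin e → ℕ), 1 ≤ e → 1 ≤ g → prim e g α →
  ∏ i, (n i - g) ≤ g * ((Fintype.piFinset (fun i => Ico (u i) (u i + n i))).filter
    (fun l => g ∣ ∑ i, α i * l i)).card ∧
  g * ((Fintype.piFinset (fun i => Ico (u i) (u i + n i))).filter
    (fun l => g ∣ ∑ i, α i * l i)).card ≤ ∏ i, (n i + g)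

/-- the lattice points of the cell `j` -/
def Lset (e g B : ℕ) (α j : Fin e → ℕ) : Finset (Fin e → ℕ) :=
  (Fintype.piFinset (fun i => Ico (B ^ (j i)) (2 * B ^ (j i)))).filter
    (fun l => g ∣ ∑ i, α i * l i)

/-- `κ = ⌊N/B^(t+∑j)⌋` -/
def kap (e N B t : ℕ) (j : Fin e → ℕ) : ℕ := N / B ^ (t + ∑ i, j i)

/-- `l` occurs in the cell `(t,j)` -/
def EvC (e g M a0 B : ℕ) (α b : Fin e → ℕ) (t : ℕ) (j l : Fin e → ℕ) : Prop :=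
  Ev e g M a0 α b l (kap e (g * M) B t j) (kap e (g * M) B t j)

/-- number of dual vectors in the cell `(t,j)` -/
noncomputable def NN (e g M a0 B : ℕ) (α b : Fin e → ℕ) (t : ℕ) (j : Fin e → ℕ) : ℕ :=
  ((Lset e g B α j).filter (fun l => EvC e g M a0 B α b t j l)).card

/-- the regime -/
structure Reg (e B g M a0 : ℕ) (α : Fin e → ℕ) (J : ℕ) : Prop where
  he : 2 ≤ e
  hB : 64 ≤ B
  hJ : 1 ≤ J
  hg : 1 ≤ g
  hgB : 8 * g ≤ B ^ J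
  hN : B ^ (40 * e * J) ≤ g * M
  ha : Nat.Coprime a0 M
  hα : prim e g α

/-- the cell indices `[3J,5J)^e` -/
def jset (e J : ℕ) : Finset (Fin e → ℕ) := Fintype.piFinset (fun _ => Ico (3 * J) (5 * J))

/-- number of vectors at level `t` -/
noncomputable def Mt (e g M a0 B J : ℕ) (α b : Fin e → ℕ) (t : ℕ) : ℝ :=
  ∑ j ∈ jset e J, (NN e g M a0 B α b t j : ℝ)

/-- parallel vectors -/
def Par (e : ℕ) (l l' : Fin e → ℕ) : Prop := ∀ p q, l p * l' q = l q * l' p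

/-- KAP. Sizes of `κ`.

PROOF. Let `x = t + ∑ j`. `3 e J ≤ ∑ j ≤ e (5J - 1)`, so `3eJ ≤ x ≤ J + 5eJ ≤ 6eJ`. (1) division.
(3) `B^(34eJ) B^x ≤ B^(40eJ) ≤ gM`. (2) `gM < (κ+1) B^x ≤ 2 κ B^x` as `κ ≥ 1`.
(4) `κ B^(6J) ≤ κ B^(3eJ) ≤ κ B^x ≤ g M` and `8 g ≤ B^J`: `4 B^(5J) κ * 8 g ≤ 4 B^(6J) κ ≤ 4 g M`, so
`8 (B^(5J) κ) ≤ M`, i.e. `4 B^(5J) κ ≤ M/2 < M` (`M ≥ 1`). -/
def S_KAP : Prop := ∀ (e B g M a0 J : ℕ) (α : Fin e → ℕ), Reg e B g M a0 α J →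
  ∀ (t : ℕ) (j : Fin e → ℕ), t ≤ J → j ∈ jset e J →
  kap e (g * M) B t j * B ^ (t + ∑ i, j i) ≤ g * M ∧
  g * M ≤ 2 * kap e (g * M) B t j * B ^ (t + ∑ i, j i) ∧
  B ^ (34 * e * J) ≤ kap e (g * M) B t j ∧
  4 * B ^ (5 * J) * kap e (g * M) B t j < M

/-- LK (uses `S_LCNT S_KAP`). The expected number of vectors of a cell is `≍ B^(-t)`.

PROOF. With `X_i = B^(j_i) ≥ B^(3J) ≥ 8g`: `S_LCNT` (`u_i = n_i = X_i`) gives
`2^(-e) ∏ X_i ≤ ∏ (X_i - g) ≤ g |L| ≤ ∏ (X_i + g) ≤ 2^e ∏ X_i`. By `S_KAP`,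
`κ B^t ∏ X_i ≤ g M ≤ 2 κ B^t ∏ X_i` (`B^(t+∑j) = B^t ∏ X_i`). Hence
`g * B^t |L| κ ≤ 2^e ∏X_i B^t κ ≤ 2^e g M` and `∏X_i M g ≤ 2^e g |L| * 2 κ B^t ∏ X_i`. -/
def S_LK : Prop := ∀ (e B g M a0 J : ℕ) (α : Fin e → ℕ), Reg e B g M a0 α J →
  ∀ (t : ℕ) (j : Fin e → ℕ), t ≤ J → j ∈ jset e J →
  B ^ t * ((Lset e g B α j).card * kap e (g * M) B t j) ≤ 2 ^ e * M ∧
  M ≤ 2 ^ (e + 1) * (B ^ t * ((Lset e g B α j).card * kap e (g * M) B t j))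

/-- ONE (uses `S_SINGLE S_KAP`). First moment for one `l`.

PROOF. `S_SINGLE` with `A = L = κ ≤ M` (`S_KAP` (4)), `i0 = 0`, and
`l_0 < 2 B^(5J) ≤ κ/B^J` because `κ ≥ B^(34eJ) ≥ B^(68J)`. So the count is at most
`(κ + l_0) M^(e-1) ≤ (1 + 1/B^J) κ M^(e-1)` and at least `(κ - l_0) M^(e-1)`. -/
def S_ONE : Prop := ∀ (e B g M a0 J : ℕ) (α : Fin e → ℕ), Reg e B g M a0 α J →
  ∀ (t : ℕ) (j : Fin e → ℕ), t ≤ J → j ∈ jset e J → ∀ l ∈ Lset e g B α j,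
  ((univ.filter (fun b : Fin e → Fin M =>
      EvC e g M a0 B α (fun i => (b i : ℕ)) t j l)).card : ℝ)
      ≤ (1 + 1 / (B : ℝ) ^ J) * (kap e (g * M) B t j : ℝ) * (M : ℝ) ^ (e - 1) ∧
  (1 - 1 / (B : ℝ) ^ J) * (kap e (g * M) B t j : ℝ) * (M : ℝ) ^ (e - 1) ≤
  ((univ.filter (fun b : Fin e → Fin M =>
      EvC e g M a0 B α (fun i => (b i : ℕ)) t j l)).card : ℝ)

/-- NP (uses `S_PAIR S_KAP`). Second moment for one non-parallel pair.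

PROOF. Not parallel: there are `p, q` (necessarily different) with `l_p l'_q ≠ l_q l'_p`, and
`|l_p l'_q - l_q l'_p| ≤ 4 B^(10J) =: Dm` (all coordinates are `< 2 B^(5J)`, both products are
nonnegative). `Dm B^J ≤ B^(12J) ≤ B^(34eJ) ≤ κ, κ'`. So `S_PAIR` gives at most
`(κ + Dm)(κ' + Dm) M^(e-2) ≤ (1 + 1/B^J)² κ κ' M^(e-2)`. -/
def S_NP : Prop := ∀ (e B g M a0 J : ℕ) (α : Fin e → ℕ), Reg e B g M a0 α J →
  ∀ (t t' : ℕ) (j j' : Fin e → ℕ), t ≤ J → t' ≤ J → j ∈ jset e J → j' ∈ jset e J →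
  ∀ l ∈ Lset e g B α j, ∀ l' ∈ Lset e g B α j', ¬ Par e l l' →
  ((univ.filter (fun b : Fin e → Fin M => EvC e g M a0 B α (fun i => (b i : ℕ)) t j l ∧
      EvC e g M a0 B α (fun i => (b i : ℕ)) t' j' l')).card : ℝ)
      ≤ (1 + 1 / (B : ℝ) ^ J) ^ 2 * ((kap e (g * M) B t j : ℝ) * (kap e (g * M) B t' j' : ℝ)) *
        (M : ℝ) ^ (e - 2)

/-- PARSTR. Structure of parallel dual vectors.

PROOF. `l ∥ l'` positive vectors: with `l_0/l'_0 = m/m'` in lowest terms, `m' l_i = m l'_i` for all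
`i` (from `Par`: `l_i l'_0 = l_0 l'_i`), so `m ∣ l_i`, `m' ∣ l'_i`, and `l = m l''`, `l' = m' l''`
with `l''_i = l_i/m = l'_i/m'`. From the two divisibilities (multiply by `m'` and `m`, subtract):
`g M ∣ g a0 (m' k - m k')` (in integers), so `M ∣ m' k - m k'` (`a0` coprime to `M`, `g ≥ 1`). As
`0 < m' k ≤ l'_0 k < M` and `0 < m k' ≤ l_0 k' < M`, `m' k = m k'`, hence `k = m k''`, `k' = m' k''`.
Take integers `r, s` with `r m + s m' = 1`: `r (k,l) + s (k',l') = (k'',l'')` is dual as well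
(integer combination of multiples of `gM`). -/
def S_PARSTR : Prop := ∀ (e g M a0 k k' : ℕ) (α b l l' : Fin e → ℕ), 1 ≤ e → 1 ≤ g →
  Nat.Coprime a0 M → (∀ i, 1 ≤ l i) → (∀ i, 1 ≤ l' i) → 1 ≤ k → 1 ≤ k' → Par e l l' →
  g * M ∣ g * a0 * k + ∑ i, (α i + g * b i) * l i →
  g * M ∣ g * a0 * k' + ∑ i, (α i + g * b i) * l' i →
  (∀ i, l' i * k < M) → (∀ i, l i * k' < M) →
  ∃ (m m' k'' : ℕ) (l'' : Fin e → ℕ), 1 ≤ m ∧ 1 ≤ m' ∧ Nat.Coprime m m' ∧ k = m * k'' ∧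
    k' = m' * k'' ∧ (∀ i, l i = m * l'' i) ∧ (∀ i, l' i = m' * l'' i) ∧
    g * M ∣ g * a0 * k'' + ∑ i, (α i + g * b i) * l'' i

/-- CROSS (uses `S_PARSTR S_KAP`). No parallel vectors in conflicting or same-level cells.

PROOF. Let `k ∈ (κ,2κ]`, `k' ∈ (κ',2κ']` be the first coordinates. `l'_i k ≤ 2 B^(5J) * 2κ < M` by
`S_KAP` (4), same for the other; so `S_PARSTR` applies and `ρ := k/k' = l_i/l'_i = m/m'` for all `i`.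
From `l_i ∈ [B^(j_i), 2B^(j_i))`: `B^(j_i - j'_i)/2 < ρ < 2 B^(j_i - j'_i)`. With
`x = t+∑j`, `x' = t'+∑j'`, `κ B^x ≤ gM ≤ 2κ B^x` (same for `'`): `κ/κ' ∈ [B^(x'-x)/2, 2 B^(x'-x)]`,
`k/k' ∈ (κ/(2κ'), 2κ/κ')`, so `ρ ∈ (B^(x'-x)/4, 4 B^(x'-x))`. As `B ≥ 64` all the integers
`j_i - j'_i` are equal, to `s` say, and `x' - x = s`. But `x - x' = t - t' + e s`, so
`t - t' = -(e+1) s`. Each alternative of the hypothesis gives `s = 0`, whence `t = t'`, `j = j'`,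
contrary to `(t,j) ≠ (t',j')`. -/
def S_CROSS : Prop := ∀ (e B g M a0 J : ℕ) (α b : Fin e → ℕ), Reg e B g M a0 α J →
  ∀ (t t' : ℕ) (j j' : Fin e → ℕ), t ≤ J → t' ≤ J → j ∈ jset e J → j' ∈ jset e J →
  ¬ (t = t' ∧ j = j') →
  (t = t' ∨ (∃ i, j i = j' i) ∨ t + ∑ i, j i = t' + ∑ i, j' i) →
  ∀ l ∈ Lset e g B α j, ∀ l' ∈ Lset e g B α j', Par e l l' →
  EvC e g M a0 B α b t j l → EvC e g M a0 B α b t' j' l' → False

/-- NSUM (uses `S_LCNT`). Counting the possible reduced vectors.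

PROOF. `X_i = B^(j_i)`, `X = min X_i ≥ B^(3J)`. Let `N_m` be the inner cardinality and
`n_i = #{l : X_i ≤ m l < 2X_i} ≤ X_i/m + 1` (an interval of integers).
Case `m g ≤ X_i` for all `i`: `n_i + g ≤ X_i/m + 1 + g ≤ 3 X_i/m`, so `S_LCNT` gives
`g N_m ≤ 3^e ∏X_i / m^e`.
Case `m g > X`: if `N_m > 0` then `m < 2X_i` for all `i` (`1 ≤ l''_i`), `n_i ≤ X_i/m + 1 ≤ 3X_i/m`,
`N_m ≤ ∏ n_i ≤ 3^e ∏ X_i/m^e`.
So `g ∑_{m≥2} N_m ≤ 3^e ∏X_i (∑_{m≥2} 1/m² + g ∑_{m > X/g} 1/m²)`; `∑_{m≥2} 1/m² ≤ 1`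
(telescoping) and `g ∑_{m>X/g} 1/m² ≤ g * 2g/X ≤ 2 (B^J/8)²/B^(3J) ≤ 1`. Total
`≤ 2 * 3^e ∏ X_i ≤ 3^(e+1) ∏ X_i`. -/
def S_NSUM : Prop := ∀ (e B g M a0 J : ℕ) (α : Fin e → ℕ), Reg e B g M a0 α J →
  ∀ j ∈ jset e J,
  g * ∑ m ∈ Ico 2 (2 * B ^ (5 * J)),
    ((Fintype.piFinset (fun _ : Fin e => Ico 1 (2 * B ^ (5 * J)))).filter (fun l =>
      (∀ i, B ^ (j i) ≤ m * l i ∧ m * l i < 2 * B ^ (j i)) ∧ g ∣ ∑ i, α i * l i)).card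
    ≤ 3 ^ (e + 1) * ∏ i, B ^ (j i)

/-- PARC (uses `S_PARSTR S_KAP S_SINGLE S_NSUM`). Parallel pairs inside one cell.

PROOF. Fix `b` and a pair `(l,l')`, `l ≠ l'`, counted by `b`, with first coordinates `k,k' ∈ (κ,2κ]`.
`S_PARSTR` (as in `S_CROSS`, `l'_i k ≤ 4 B^(5J) κ < M`) gives `l = m l''`, `l' = m' l''`, `k = m k''`,
`gcd(m,m') = 1`, `(k'',l'')` dual. `m ≠ m'`, and `m/m' = l_i/l'_i ∈ (1/2,2)`; so `m ≥ 2` (if `m = 1`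
then `m' < 2` and `m' = 1 = m`), `m' < 2m`, `m ≤ l_0 < 2B^(5J)`. Also `κ/m < k'' ≤ 2κ/m`,
`X_i ≤ m l''_i < 2 X_i`, `g ∣ α·l''`, and `(m, m', l'')` determines the pair. So the number of pairs is at
most `∑_{m≥2} 2m #{l'' counted in N_m : Ev b l'' on (⌊κ/m⌋, ⌊2κ/m⌋]}`. Sum over `b` by `S_SINGLE`
(interval length `L = ⌊2κ/m⌋ - ⌊κ/m⌋ ≤ κ/m + 1 ≤ M`): each `l''` contributes at most
`(L + l''_0) M^(e-1) ≤ (2κ/m) M^(e-1)` since `1 + 2B^(5J) ≤ κ/m` (`κ ≥ B^(34eJ)`, `m < 2B^(5J)`).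
Total `≤ ∑_m 2m N_m (2κ/m) M^(e-1) = 4 κ M^(e-1) ∑ N_m ≤ 4 κ M^(e-1) 3^(e+1) ∏X_i/g` (`S_NSUM`) and
`B^t κ ∏ X_i ≤ g M` (`S_KAP`), so `B^t * total ≤ 4 * 3^(e+1) M^e`. -/
def S_PARC : Prop := ∀ (e B g M a0 J : ℕ) (α : Fin e → ℕ), Reg e B g M a0 α J →
  ∀ (t : ℕ) (j : Fin e → ℕ), t ≤ J → j ∈ jset e J →
  B ^ t * ∑ b : Fin e → Fin M, ((Lset e g B α j ×ˢ Lset e g B α j).filter (fun z =>
      z.1 ≠ z.2 ∧ Par e z.1 z.2 ∧ EvC e g M a0 B α (fun i => (b i : ℕ)) t j z.1 ∧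
      EvC e g M a0 B α (fun i => (b i : ℕ)) t j z.2)).card
    ≤ 4 * 3 ^ (e + 1) * M ^ e

/-- CONF (uses `S_NP S_CROSS S_LK`). Mixed second moment of two conflicting cells.

PROOF. `NN NN'` counts pairs `(l,l') ∈ L × L'` with both events; parallel pairs do not occur by
`S_CROSS`. Exchange sums and use `S_NP`: `∑_b NN NN' ≤ |L||L'| (1+1/B^J)² κ κ' M^(e-2)
≤ 4 (|L|κ)(|L'|κ') M^(e-2)`, and `B^t |L| κ ≤ 2^e M`, `B^t' |L'| κ' ≤ 2^e M` (`S_LK`). -/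
def S_CONF : Prop := ∀ (e B g M a0 J : ℕ) (α : Fin e → ℕ), Reg e B g M a0 α J →
  ∀ (t t' : ℕ) (j j' : Fin e → ℕ), t ≤ J → t' ≤ J → j ∈ jset e J → j' ∈ jset e J →
  ¬ (t = t' ∧ j = j') →
  (t = t' ∨ (∃ i, j i = j' i) ∨ t + ∑ i, j i = t' + ∑ i, j' i) →
  (B : ℝ) ^ t * (B : ℝ) ^ t' * ∑ b : Fin e → Fin M,
      ((NN e g M a0 B α (fun i => (b i : ℕ)) t j : ℝ) *
       (NN e g M a0 B α (fun i => (b i : ℕ)) t' j' : ℝ))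
    ≤ 4 * 4 ^ e * (M : ℝ) ^ e

/-- QM (uses `S_NP S_PARC S_ONE S_LK`). Second moment of one cell.

PROOF. `NN²` counts pairs `(l,l')`: equal ones, different parallel ones, non-parallel ones.
`∑_b` of the equal ones `≤ |L| 2 κ M^(e-1)` (`S_ONE`), times `B^t`: `≤ 2 * 2^e M^e` (`S_LK`).
Parallel: `≤ 4 * 3^(e+1) M^e` after multiplication by `B^t` (`S_PARC`). Non-parallel (`S_NP`):
`≤ 4 |L|² κ² M^(e-2)`, and `B^t (|L|κ)² ≤ (B^t |L| κ)² ≤ 4^e M²`. Total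
`≤ (2*2^e + 12*3^e + 4*4^e) M^e ≤ 18 * 4^e M^e`. -/
def S_QM : Prop := ∀ (e B g M a0 J : ℕ) (α : Fin e → ℕ), Reg e B g M a0 α J →
  ∀ (t : ℕ) (j : Fin e → ℕ), t ≤ J → j ∈ jset e J →
  (B : ℝ) ^ t * ∑ b : Fin e → Fin M, (NN e g M a0 B α (fun i => (b i : ℕ)) t j : ℝ) ^ 2
    ≤ 18 * 4 ^ e * (M : ℝ) ^ e

/-- expected number of vectors at level `t` -/
noncomputable def AA (e g M B J : ℕ) (α : Fin e → ℕ) (t : ℕ) : ℝ :=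
  ∑ j ∈ jset e J, ((Lset e g B α j).card : ℝ) * (kap e (g * M) B t j : ℝ) / (M : ℝ)

/-- MOM1 (uses `S_ONE`). First moment at level `t`.

PROOF. `∑_b M_t = ∑_j ∑_{l ∈ L_j} #{b : EvC l}`; by `S_ONE` each term is between
`(1 ∓ 1/B^J) κ_j M^(e-1)`, and `∑_j |L_j| κ_j M^(e-1) = AA M^e` (`M ≥ 1`, `e ≥ 1`). -/
def S_MOM1 : Prop := ∀ (e B g M a0 J : ℕ) (α : Fin e → ℕ), Reg e B g M a0 α J →
  ∀ t : ℕ, t ≤ J →
  ∑ b : Fin e → Fin M, Mt e g M a0 B J α (fun i => (b i : ℕ)) t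
    ≤ (1 + 1 / (B : ℝ) ^ J) * AA e g M B J α t * (M : ℝ) ^ e ∧
  (1 - 1 / (B : ℝ) ^ J) * AA e g M B J α t * (M : ℝ) ^ e ≤
    ∑ b : Fin e → Fin M, Mt e g M a0 B J α (fun i => (b i : ℕ)) t

/-- MOM2 (uses `S_NP S_CROSS S_PARC S_MOM1`). Second moment at level `t`.

PROOF. Let `M_t(b) = ∑_j NN(t,j)`, `A = AA`, `δ = 1/B^J`. Expand `∑_b M_t²` as a sum over pairs
`((j,l),(j',l'))` of the number of `b` with both events: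
* non-parallel pairs: by `S_NP` total `≤ (1+δ)² (∑_j |L_j| κ_j)² M^(e-2) = (1+δ)² A² M^e`;
* `(j,l) = (j',l')`: `∑_b M_t ≤ (1+δ) A M^e` by `S_MOM1`;
* parallel, `j ≠ j'`: none, by `S_CROSS` (same `t`);
* parallel, `j = j'`, `l ≠ l'`: `≤ 4*3^(e+1) (2J)^e M^e/B^t` by `S_PARC` and `|jset| = (2J)^e`. -/
def S_MOM2 : Prop := ∀ (e B g M a0 J : ℕ) (α : Fin e → ℕ), Reg e B g M a0 α J →
  ∀ t : ℕ, t ≤ J →
  ∑ b : Fin e → Fin M, (Mt e g M a0 B J α (fun i => (b i : ℕ)) t) ^ 2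
    ≤ ((1 + 1 / (B : ℝ) ^ J) ^ 2 * (AA e g M B J α t) ^ 2 +
        (1 + 1 / (B : ℝ) ^ J) * AA e g M B J α t +
        4 * 3 ^ (e + 1) * (2 * (J : ℝ)) ^ e / (B : ℝ) ^ t) * (M : ℝ) ^ e

/-- M2 (uses `S_MOM1 S_MOM2`). Variance at level `t`.

PROOF. With `δ = 1/B^J ≤ 1/64` and `A = AA ≥ 0`:
`∑ (M_t - A)² = ∑ M_t² - 2A ∑ M_t + A² M^e ≤ ((1+δ)² - 2(1-δ) + 1) A² M^e + (1+δ) A M^e + …`
and `(1+δ)² - 2(1-δ) + 1 = 4δ + δ² ≤ 5δ`. (`#(Fin e → Fin M) = M^e`.) -/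
def S_M2 : Prop := ∀ (e B g M a0 J : ℕ) (α : Fin e → ℕ), Reg e B g M a0 α J →
  ∀ t : ℕ, t ≤ J →
  ∑ b : Fin e → Fin M, (Mt e g M a0 B J α (fun i => (b i : ℕ)) t - AA e g M B J α t) ^ 2
    ≤ (5 * (AA e g M B J α t) ^ 2 / (B : ℝ) ^ J + 2 * AA e g M B J α t +
        4 * 3 ^ (e + 1) * (2 * (J : ℝ)) ^ e / (B : ℝ) ^ t) * (M : ℝ) ^ e

/-- CHEB (uses `S_M2 S_LK`). Chebyshev at level `t`.

PROOF. By `S_LK` each `|L_j| κ_j/M ≥ 1/(2^(e+1) B^t)`, so `A ≥ (2J)^e/(2^(e+1) B^t) > 0`. If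
`B^t M_t(b) < (2J)^e/2^(e+2)` then `M_t < A/2` and `(M_t - A)² ≥ A²/4`. Hence the number of such `b` is
at most `4 (5/B^J + 2/A + 4*3^(e+1) (2J)^e/(B^t A²)) M^e`, with `1/A ≤ 2^(e+1) B^t/(2J)^e` and
`(2J)^e/(B^t A²) ≤ 4^(e+1) B^t/(2J)^e`. Take `C` large in terms of `e`. -/
def S_CHEB : Prop := ∀ e : ℕ, 2 ≤ e → ∃ C : ℝ, 0 < C ∧
  ∀ (B g M a0 J : ℕ) (α : Fin e → ℕ), Reg e B g M a0 α J → ∀ t : ℕ, t ≤ J →
  ((univ.filter (fun b : Fin e → Fin M =>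
      (B : ℝ) ^ t * Mt e g M a0 B J α (fun i => (b i : ℕ)) t
        < (2 * (J : ℝ)) ^ e / 2 ^ (e + 2))).card : ℝ)
    ≤ C * (1 / (B : ℝ) ^ J + (B : ℝ) ^ t / (J : ℝ) ^ e) * (M : ℝ) ^ e

/-- conflict of two cells `(t,j) ≠ (t',j')` -/
def conf (e : ℕ) (w w' : ℕ × (Fin e → ℕ)) : Prop :=
  w ≠ w' ∧ ((∃ i, w.2 i = w'.2 i) ∨ w.1 + ∑ i, w.2 i = w'.1 + ∑ i, w'.2 i)

/-- the cells -/
def Om (e J t0 t1 : ℕ) : Finset (ℕ × (Fin e → ℕ)) := Ico t0 t1 ×ˢ jset e J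

/-- `V = ∑ B^t 1[NN ≥ 1]` -/
noncomputable def VV (e g M a0 B J t0 t1 : ℕ) (α b : Fin e → ℕ) : ℝ :=
  ∑ w ∈ Om e J t0 t1, if 1 ≤ NN e g M a0 B α b w.1 w.2 then (B : ℝ) ^ w.1 else 0

/-- `Q = ∑ B^t NN²` -/
noncomputable def QQ (e g M a0 B J t0 t1 : ℕ) (α b : Fin e → ℕ) : ℝ :=
  ∑ w ∈ Om e J t0 t1, (B : ℝ) ^ w.1 * (NN e g M a0 B α b w.1 w.2 : ℝ) ^ 2

/-- the conflict sum -/
noncomputable def CF (e g M a0 B J t0 t1 : ℕ) (α b : Fin e → ℕ) : ℝ :=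
  ∑ z ∈ (Om e J t0 t1 ×ˢ Om e J t0 t1).filter (fun z => conf e z.1 z.2 ∧ z.1.1 ≤ z.2.1),
    (B : ℝ) ^ z.1.1 * ((NN e g M a0 B α b z.1.1 z.1.2 : ℝ) * (NN e g M a0 B α b z.2.1 z.2.2 : ℝ))

/-- CFN. Number of conflicting pairs.

PROOF. For given `t, t'` (`(t1-t0)²` choices): for each `i` the pairs `(j,j')` with `j_i = j'_i` are at
most `(2J)^(2e-1)`; the pairs with `t + ∑j = t' + ∑j'` are at most `(2J)^(2e-1)` (`j'_0` is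
determined by the other `2e-1` coordinates, `e ≥ 1`). -/
def S_CFN : Prop := ∀ (e J t0 t1 : ℕ), 1 ≤ e →
  ((Om e J t0 t1 ×ˢ Om e J t0 t1).filter (fun z => conf e z.1 z.2)).card
    ≤ (t1 - t0) ^ 2 * (e + 1) * (2 * J) ^ (2 * e - 1)

/-- SEP (uses `S_KAP`). Separation of vectors in cells with different indices.

PROOF. If `j_i < j'_i` then `R l_i < 2R B^(j_i) ≤ B^(j_i+1) ≤ B^(j'_i) ≤ l'_i`. With
`x = t+∑j < x' = t'+∑j'`: `R k' ≤ 2R κ'`, `κ' B^x' ≤ gM ≤ 2κ B^x`, so `κ' B ≤ 2κ` and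
`2 R κ' ≤ (B/4) κ' ≤ κ/2 < k` (`B ≥ 8R`). -/
def S_SEP : Prop := ∀ (e R B g M a0 J : ℕ) (α : Fin e → ℕ), B = 8 * R + 64 →
  Reg e B g M a0 α J →
  ∀ (t t' : ℕ) (j j' : Fin e → ℕ), t ≤ J → t' ≤ J → j ∈ jset e J → j' ∈ jset e J →
  (∀ i, j i ≠ j' i) → t + ∑ i, j i ≠ t' + ∑ i, j' i →
  ∀ l ∈ Lset e g B α j, ∀ l' ∈ Lset e g B α j', ∀ k k' : ℕ,
  kap e (g * M) B t j < k → k ≤ 2 * kap e (g * M) B t j →
  kap e (g * M) B t' j' < k' → k' ≤ 2 * kap e (g * M) B t' j' →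
  (∀ i, R * l i ≤ l' i ∨ R * l' i ≤ l i) ∧ (R * k ≤ k' ∨ R * k' ≤ k)

/-- SEL (uses `S_SEP S_KAP`). Selection of a good set.

PROOF. Fix `b`. Let `Ω = Om`, `P = {ω ∈ Ω : NN ω ≥ 1}`. For `ω ∈ P` choose `l_ω ∈ L` with `EvC` and
the corresponding `k_ω ∈ (κ,2κ]`, and put `v_ω = (k_ω, l_ω) ∈ ℤ^(e+1)` (`Fin.cons`). Let `P' ⊆ P` be
the set of `ω ∈ P` for which there is no `ω' ∈ P` with `conf ω ω'` and `t ≤ t'`. Two different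
members of `P'` are not in conflict (`conf` is symmetric, and one of `t ≤ t'`, `t' ≤ t` holds), so all
their indices differ and `S_SEP` gives the separation, in particular `ω ↦ v_ω` is injective on `P'`
(`R ≥ 1`: if `v_ω = v_ω'` with `R ≥ 2` separation fails; for `R = 1` use that the cells
`[B^j, 2B^j)` are disjoint for different `j`: `l_i ≥ B^(j_i)`, `l_i < 2 B^(j'_i)`).
`v_ω` is dual (`Ev`), positive, `8 k_ω ≤ 16 κ ≤ gM` and `8 l_i ≤ 16 B^(5J) ≤ B^(40eJ) ≤ gM`. Weight: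
`N/(k ∏l_i) ≥ N/(2κ 2^e ∏X_i) ≥ B^t/2^(e+1)` by `κ B^t ∏X_i ≤ N`. Hence
`wt ≥ 2^(-(e+1)) ∑_{ω∈P'} B^t` and `∑_{ω∈P∖P'} B^t ≤ ∑_{ω∈Ω} ∑_{ω': conf, t≤t'} B^t NN ω NN ω'`. -/
def S_SEL : Prop := ∀ (e R B g M a0 J : ℕ) (α b : Fin e → ℕ) (t0 t1 : ℕ), B = 8 * R + 64 → 1 ≤ R →
  Reg e B g M a0 α J → t1 ≤ J →
  Good (e + 1) R (g * M) (vec e g a0 α b)
    (1 / 2 ^ (e + 1) * (VV e g M a0 B J t0 t1 α b - CF e g M a0 B J t0 t1 α b))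

/-- EXC1 (uses `S_CHEB`). First exceptional set.

PROOF. Union bound over `t ∈ [t0,t1)` and `S_CHEB`: at most
`∑_t C (1/B^J + B^t/J^e) M^e ≤ C ((t1-t0)/B^J + B^t1/J^e) M^e` (`∑_{t<t1} B^t ≤ B^t1`, `B ≥ 2`). -/
def S_EXC1 : Prop := ∀ e : ℕ, 2 ≤ e → ∃ C : ℝ, 0 < C ∧
  ∀ (B g M a0 J t0 t1 : ℕ) (α : Fin e → ℕ), Reg e B g M a0 α J → t0 ≤ t1 → t1 ≤ J →
  ((univ.filter (fun b : Fin e → Fin M => ∃ t : ℕ, t0 ≤ t ∧ t < t1 ∧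
      (B : ℝ) ^ t * Mt e g M a0 B J α (fun i => (b i : ℕ)) t
        < (2 * (J : ℝ)) ^ e / 2 ^ (e + 2))).card : ℝ)
    ≤ C * (((t1 : ℝ) - t0) / (B : ℝ) ^ J + (B : ℝ) ^ t1 / (J : ℝ) ^ e) * (M : ℝ) ^ e

/-- EXC2 (uses `S_QM`). Second exceptional set.

PROOF. `∑_b QQ ≤ |Om| 18 4^e M^e = (t1-t0) (2J)^e 18 4^e M^e` by `S_QM`. If `t0 = t1` then `QQ = 0` and
the set is empty. Otherwise Markov's inequality. -/
def S_EXC2 : Prop := ∀ (e B g M a0 J t0 t1 : ℕ) (α : Fin e → ℕ) (η : ℝ), Reg e B g M a0 α J →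
  t0 ≤ t1 → t1 ≤ J → 0 < η →
  ((univ.filter (fun b : Fin e → Fin M =>
      ((t1 : ℝ) - t0) * (2 * (J : ℝ)) ^ e * (18 * 4 ^ e) / η
        < QQ e g M a0 B J t0 t1 α (fun i => (b i : ℕ)))).card : ℝ) ≤ η * (M : ℝ) ^ e

/-- EXC3 (uses `S_CONF S_CFN`). Third exceptional set.

PROOF. For a pair with `conf` and `t ≤ t'`, `S_CONF` gives
`B^t ∑_b NN NN' ≤ 4 4^e M^e/B^t' ≤ 4 4^e M^e/B^t0`. With `S_CFN`,
`∑_b CF ≤ (t1-t0)² (e+1) (2J)^(2e-1) 4 4^e M^e/B^t0`. Markov (if `t0 = t1` then `CF = 0`). -/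
def S_EXC3 : Prop := ∀ (e B g M a0 J t0 t1 : ℕ) (α : Fin e → ℕ) (η : ℝ), Reg e B g M a0 α J →
  t0 ≤ t1 → t1 ≤ J → 0 < η →
  ((univ.filter (fun b : Fin e → Fin M =>
      ((t1 : ℝ) - t0) ^ 2 * ((e : ℝ) + 1) * (2 * (J : ℝ)) ^ (2 * e - 1) * (4 * 4 ^ e) /
          (B : ℝ) ^ t0 / η
        < CF e g M a0 B J t0 t1 α (fun i => (b i : ℕ)))).card : ℝ) ≤ η * (M : ℝ) ^ e

/-- DET (uses `S_SEL`). Deterministic combination.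

PROOF. Write `T = t1 - t0`, `Z = ∑_{w∈Om} B^t NN = ∑_t B^t M_t ≥ T (2J)^e/2^(e+2)`.
Cauchy–Schwarz: `Z = ∑ B^t NN 1[NN ≥ 1] ≤ √(QQ VV)`, i.e. `Z² ≤ VV QQ`. If `T = 0` the asserted value
is `0` and the empty set is good. If `T ≥ 1` then `Z > 0`, `QQ > 0` and
`VV ≥ Z²/QQ ≥ η T (2J)^e/(2^(2e+4) 18 4^e)`. By `S_SEL` the tuple is good with
`2^(-(e+1)) (VV - CF)`, at least the asserted value if `c0 = 2^e/(2^(3e+5) 18 4^e)` and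
`C = (e+1) 2^(2e-1) 4 4^e` (`Good` is monotone in `s`). -/
def S_DET : Prop := ∀ e : ℕ, 2 ≤ e → ∃ c0 C : ℝ, 0 < c0 ∧ 0 < C ∧
  ∀ (R B g M a0 J t0 t1 : ℕ) (α b : Fin e → ℕ) (η : ℝ), B = 8 * R + 64 → 1 ≤ R →
  Reg e B g M a0 α J → t0 ≤ t1 → t1 ≤ J → 0 < η →
  (∀ t : ℕ, t0 ≤ t → t < t1 →
    (2 * (J : ℝ)) ^ e / 2 ^ (e + 2) ≤ (B : ℝ) ^ t * Mt e g M a0 B J α b t) →
  QQ e g M a0 B J t0 t1 α b ≤ ((t1 : ℝ) - t0) * (2 * (J : ℝ)) ^ e * (18 * 4 ^ e) / η →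
  CF e g M a0 B J t0 t1 α b ≤ ((t1 : ℝ) - t0) ^ 2 * ((e : ℝ) + 1) *
    (2 * (J : ℝ)) ^ (2 * e - 1) * (4 * 4 ^ e) / (B : ℝ) ^ t0 / η →
  Good (e + 1) R (g * M) (vec e g a0 α b)
      (c0 * η * ((t1 : ℝ) - t0) * (J : ℝ) ^ e -
        C / η * ((t1 : ℝ) - t0) ^ 2 * (J : ℝ) ^ (2 * e - 1) / (B : ℝ) ^ t0)

/-- CMB (uses `S_EXC1 S_EXC2 S_EXC3 S_DET`). Combination for fixed parameters.

PROOF. A `b` that is not good lies in one of the three exceptional sets (contrapositive of `S_DET`).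
Take `c0` from `S_DET` and `C` the maximum of the constants of `S_DET` and `S_EXC1` (a larger `C`
makes the value in `Good` smaller). -/
def S_CMB : Prop := ∀ e : ℕ, 2 ≤ e → ∃ c0 C : ℝ, 0 < c0 ∧ 0 < C ∧
  ∀ (R B g M a0 J t0 t1 : ℕ) (α : Fin e → ℕ) (η : ℝ), B = 8 * R + 64 → 1 ≤ R →
  Reg e B g M a0 α J → t0 ≤ t1 → t1 ≤ J → 0 < η →
  ((univ.filter (fun b : Fin e → Fin M => ¬ Good (e + 1) R (g * M)
      (vec e g a0 α (fun i => (b i : ℕ)))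
      (c0 * η * ((t1 : ℝ) - t0) * (J : ℝ) ^ e -
        C / η * ((t1 : ℝ) - t0) ^ 2 * (J : ℝ) ^ (2 * e - 1) / (B : ℝ) ^ t0))).card : ℝ)
    ≤ (2 * η + C * (((t1 : ℝ) - t0) / (B : ℝ) ^ J + (B : ℝ) ^ t1 / (J : ℝ) ^ e)) * (M : ℝ) ^ e

/-- ASY1. Choice of `t0, t1` (pure real analysis).

PROOF. `t0 = ⌈(e-1/2) log J/log B⌉`, `t1 = ⌊(e-1/4) log J/log B⌋`: for `J` large `t0 ≤ t1 ≤ J`,
`T = t1 - t0 ∈ [log J/(8 log B), log J]`, `B^t0 ≥ J^(e-1/2)`, `B^t1 ≤ J^(e-1/4)`. So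
`2 (ε/4) + C (T/B^J + B^t1/J^e) ≤ ε/2 + C (J/B^J + J^(-1/4)) ≤ ε` for `J` large, and with `η = ε/4`
`c0 η T J^e - (C/η) T² J^(2e-1)/B^t0 ≥ T J^e (c0 η - (C/η) T J^(-1/2)) ≥ (c0 η/2) T J^e
≥ c1 J^e log J` with `c1 = c0 η/(16 log B)`, since `T J^(-1/2) ≤ log J/√J → 0`. -/
def S_ASY1 : Prop := ∀ (e B : ℕ) (c0 C ε : ℝ), 2 ≤ e → 64 ≤ B → 0 < c0 → 0 < C → 0 < ε →
  ∃ c1 : ℝ, ∃ J0 : ℕ, 0 < c1 ∧ ∀ J : ℕ, J0 ≤ J → ∃ t0 t1 : ℕ, t0 ≤ t1 ∧ t1 ≤ J ∧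
    2 * (ε / 4) + C * (((t1 : ℝ) - t0) / (B : ℝ) ^ J + (B : ℝ) ^ t1 / (J : ℝ) ^ e) ≤ ε ∧
    c1 * (J : ℝ) ^ e * Real.log (J : ℝ) ≤ c0 * (ε / 4) * ((t1 : ℝ) - t0) * (J : ℝ) ^ e -
        C / (ε / 4) * ((t1 : ℝ) - t0) ^ 2 * (J : ℝ) ^ (2 * e - 1) / (B : ℝ) ^ t0

/-- ASY2. Choice of `J` (pure real analysis).

PROOF. `J = ⌊log N/(40 e log B)⌋`: `B^(40eJ) ≤ N` and `B^J ≥ N^(1/(40e))/B`, thus
`8 N^(1/(80e)) ≤ B^J` for `N ≥ (8B)^(80e)`. For `N` large `J ≥ log N/(80 e log B) ≥ √(log N)`,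
`log J ≥ (1/2) loglog N`; `c' = c1/(2 (80 e log B)^e)`. -/
def S_ASY2 : Prop := ∀ (e B : ℕ) (c1 : ℝ) (J0 : ℕ), 2 ≤ e → 64 ≤ B → 0 < c1 →
  ∃ c' : ℝ, ∃ N0 : ℕ, 0 < c' ∧ ∀ N : ℕ, N0 ≤ N → ∃ J : ℕ, J0 ≤ J ∧ 1 ≤ J ∧
    B ^ (40 * e * J) ≤ N ∧ 8 * (N : ℝ) ^ (1 / (80 * (e : ℝ))) ≤ (B : ℝ) ^ J ∧
    c' * (Real.log (N : ℝ)) ^ e * Real.log (Real.log (N : ℝ)) ≤
      c1 * (J : ℝ) ^ e * Real.log (J : ℝ)

/-- CORED (uses `S_CMB S_ASY1 S_ASY2`). The core statement for `e ≥ 2`.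

PROOF. Let `R' = max R 1` (`Good` for `R'` implies `Good` for `R`), `B = 8R'+64`, `γ = 1/(80 e)`,
`η = ε/4`. Take `c0, C` from `S_CMB`, `c1, J0` from `S_ASY1`, `c', N0` from `S_ASY2` (and `N0 ≥ 1`).
For `N = gM ≥ N0` take `J`, then `t0, t1`; `8 g ≤ 8 N^γ ≤ B^J`, so `Reg` holds, and `S_CMB` gives the
bound; `Good` is monotone in `s`. -/
def S_CORED : Prop := ∀ e : ℕ, 2 ≤ e → CORE e

/-! ## Part E: the core statement for `e = 1` (continued fractions)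

Words are lists of partial quotients in REVERSED order: the head is the last digit. -/

/-- `(q, q')` -/
def qq : List ℕ → ℕ × ℕ
  | [] => (1, 0)
  | c :: w => (c * (qq w).1 + (qq w).2, (qq w).1)

/-- `(p, p')` -/
def pp : List ℕ → ℕ × ℕ
  | [] => (0, 1)
  | c :: w => (c * (pp w).1 + (pp w).2, (pp w).1)

/-- all words of length `n` with digits in `[1,D]` -/
def words (D : ℕ) : ℕ → Finset (List ℕ)
  | 0 => {[]}
  | n + 1 => ((Finset.Icc 1 D) ×ˢ (words D n)).image (fun x => x.1 :: x.2)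

theorem mem_words (D : ℕ) : ∀ (n : ℕ) (w : List ℕ),
    w ∈ words D n ↔ w.length = n ∧ ∀ c ∈ w, 1 ≤ c ∧ c ≤ D
  | 0, w => by
      simp only [words, Finset.mem_singleton, List.length_eq_zero_iff]
      constructor
      · rintro rfl; simp
      · rintro ⟨h, -⟩; exact h
  | n + 1, w => by
      simp only [words, Finset.mem_image, Finset.mem_product, Finset.mem_Icc, Prod.exists]
      constructor
      · rintro ⟨c, v, ⟨hc, hv⟩, rfl⟩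
        rw [mem_words D n v] at hv
        refine ⟨by simp [hv.1], ?_⟩
        intro x hx
        rcases List.mem_cons.1 hx with rfl | hx
        · exact hc
        · exact hv.2 x hx
      · rintro ⟨hl, hw⟩
        cases w with
        | nil => simp at hl
        | cons c v =>
          refine ⟨c, v, ⟨hw c (by simp), ?_⟩, rfl⟩
          rw [mem_words D n v]
          exact ⟨by simpa using hl, fun x hx => hw x (by simp [hx])⟩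

theorem sum_words_succ (D n : ℕ) (f : List ℕ → ℝ) :
    ∑ w ∈ words D (n + 1), f w = ∑ c ∈ Finset.Icc 1 D, ∑ w ∈ words D n, f (c :: w) := by
  rw [words, Finset.sum_image, Finset.sum_product]
  rintro ⟨a, b⟩ - ⟨c, d⟩ - h
  simpa using h

theorem qq_pos : ∀ (w : List ℕ), (∀ c ∈ w, 1 ≤ c) → 1 ≤ (qq w).1
  | [], _ => by simp [qq]
  | c :: w, h => by
      have h1 := qq_pos w (fun x hx => h x (by simp [hx]))
      have h2 := h c (by simp)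
      simp only [qq]
      nlinarith

theorem qq_le : ∀ (w : List ℕ), (∀ c ∈ w, 1 ≤ c) → (qq w).2 ≤ (qq w).1
  | [], _ => by simp [qq]
  | c :: w, h => by
      have h1 := qq_pos w (fun x hx => h x (by simp [hx]))
      have h2 := h c (by simp)
      simp only [qq]
      nlinarith

theorem det_pq : ∀ (w : List ℕ), (((pp w).1 : ℤ) * (qq w).2 - (pp w).2 * (qq w).1) ^ 2 = 1
  | [] => by simp [qq, pp]
  | c :: w => by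
      have h1 := det_pq w
      simp only [qq, pp]
      push_cast
      linarith [h1, show ((c * ((pp w).1 : ℤ) + (pp w).2) * (qq w).1 -
        (pp w).1 * (c * (qq w).1 + (qq w).2)) ^ 2 =
        (((pp w).1 : ℤ) * (qq w).2 - (pp w).2 * (qq w).1) ^ 2 by ring]

/-- length of the cylinder -/
noncomputable def len (w : List ℕ) : ℝ :=
  1 / (((qq w).1 : ℝ) * (((qq w).1 : ℝ) + ((qq w).2 : ℝ)))

/-- `β` lies in the open cylinder of `w` -/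
def InI (w : List ℕ) (β : ℝ) : Prop := ∃ θ : ℝ, 0 < θ ∧ θ < 1 ∧
  β * (((qq w).1 : ℝ) + ((qq w).2 : ℝ) * θ) = ((pp w).1 : ℝ) + ((pp w).2 : ℝ) * θ

/-- sum of the digits in `[c0,H]` -/
def FF (c0 H : ℕ) (w : List ℕ) : ℕ := (w.map (fun c => if c0 ≤ c ∧ c ≤ H then c else 0)).sum

/-- TREE. Multiplicative functionals of the digits.

PROOF. Induction on `n` with `words D (n+1) = {c :: w}`: for `w` with `s = q'/q ∈ [0,1]`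
(`1 ≤ q`, `q' ≤ q` for words with digits `≥ 1`)
`len (c::w) = 1/((cq+q')((c+1)q+q')) = len w * (1+s)/((c+s)(c+1+s))`. So
`∑_{c::w} len (c::w) φ(c) ∏φ = ∑_w len w ∏φ * (∑_c r(c,s) φ(c)) ≤ ρ ρ^n` (all terms nonnegative), and
the same with `≥` for the second statement. -/
def S_TREE : Prop := ∀ (D n : ℕ) (φ : ℕ → ℝ) (ρ : ℝ), (∀ c, 0 ≤ φ c) → 0 ≤ ρ →
  ((∀ s : ℝ, 0 ≤ s → s ≤ 1 →
      ∑ c ∈ Finset.Icc 1 D, (1 + s) / (((c : ℝ) + s) * ((c : ℝ) + 1 + s)) * φ c ≤ ρ) →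
    ∑ w ∈ words D n, len w * (w.map φ).prod ≤ ρ ^ n) ∧
  ((∀ s : ℝ, 0 ≤ s → s ≤ 1 →
      ρ ≤ ∑ c ∈ Finset.Icc 1 D, (1 + s) / (((c : ℝ) + s) * ((c : ℝ) + 1 + s)) * φ c) →
    ρ ^ n ≤ ∑ w ∈ words D n, len w * (w.map φ).prod)

/-- MASS (uses `S_TREE`).

PROOF. `φ = 1`: `∑_{c=1}^D (1+s)/((c+s)(c+1+s)) = 1 - (1+s)/(D+1+s) ∈ [1 - 2/(D+1), 1]` (telescoping).
`(1 - 2/(D+1))^n ≥ 1 - 2n/(D+1)` by Bernoulli (`one_add_mul_le_pow`; `-2 ≤ -2/(D+1)`; for `D = 0` the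
base is `-1`, treat `1 ≤ D` only). -/
def S_MASS : Prop := ∀ D n : ℕ, 1 ≤ D →
  1 - 2 * (n : ℝ) / ((D : ℝ) + 1) ≤ ∑ w ∈ words D n, len w ∧ ∑ w ∈ words D n, len w ≤ 1

/-- SQ (uses `S_TREE`). Few cylinders have a large denominator.

PROOF. `q(c::w) = c q + q' ≤ (c+1) q`, so `√q(w) ≤ ∏ √(c_i+1)`. Apply `S_TREE` with
`φ(c) = √(c+1)`, `ρ = 6`: for `s ∈ [0,1]`, `(1+s)/((c+s)(c+1+s)) ≤ 2/(c(c+1))`, and
`∑_{c≥1} 2√(c+1)/(c(c+1)) = ∑ 2/(c √(c+1)) ≤ 2 ∑ c^(-3/2) ≤ 6` (`∑_{c≤D} c^(-3/2) ≤ 3 - 2/√D`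
by induction, or use `1/(c√(c+1)) ≤ 2/√c - 2/√(c+1)` : indeed `2/√c - 2/√(c+1)
= 2/(√c √(c+1) (√c+√(c+1))) ≥ 1/((c+1)√c)`; any valid telescoping bound giving at most `6` works,
e.g. `1/(c√(c+1)) ≤ 3 (1/√c - 1/√(c+1))`, since
`√c/( (√(c+1)+√c))·3 ≥ 1` for `c ≥ 1`). -/
def S_SQ : Prop := ∀ D n : ℕ,
  ∑ w ∈ words D n, len w * Real.sqrt ((qq w).1 : ℝ) ≤ 6 ^ n

/-- FE (uses `S_TREE`). Exponential moment of the truncated digit sum.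

PROOF. `φ(c) = exp(-c/H)` for `c ∈ [c0,H]` and `1` otherwise, so `∏ φ = exp(-FF/H)`. For
`s ∈ [0,1]`: `∑_{c≤D} r(c,s) ≤ 1` and
`∑ r φ ≤ 1 - ∑_{c0≤c≤H} r(c,s)(1 - e^{-c/H})`, `1 - e^{-x} ≥ x/2` on `[0,1]`,
`r(c,s) ≥ 1/((c+1)(c+2)) ≥ 1/(6c²)`, so the subtracted sum is
`≥ (1/(12H)) ∑_{c0≤c≤H} 1/c ≥ (1/(12H)) log(H/c0) ≥ log H/(24 H)` because `c0² ≤ H`. Note
`log H/(24H) ≤ 1`, so `ρ = 1 - log H/(24H) ≥ 0`. -/
def S_FE : Prop := ∀ c0 H D n : ℕ, 1 ≤ c0 → c0 ^ 2 ≤ H → H ≤ D →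
  ∑ w ∈ words D n, len w * Real.exp (-(FF c0 H w : ℝ) / (H : ℝ))
    ≤ (1 - Real.log (H : ℝ) / (24 * (H : ℝ))) ^ n

/-- DISJ. Cylinders of the same length are disjoint.

PROOF. Key step: if `InI (c::w) β` with parameter `θ`, `c ≥ 1`, then `InI w β` with parameter
`θ' = 1/(c+θ) ∈ (0,1)` (multiply the equation by `θ' `: `(cq+q') + qθ = (c+θ) q + q' = (q + q'θ')/θ'`).
The parameter is unique: `p q' - p' q = ±1` (induction) so `θ ↦ (p+p'θ)/(q+q'θ)` is injective on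
`(0,1)` (`β(q+q'θ) = p+p'θ` and the same for `ϑ`: subtract to get `(θ-ϑ)(β q' - p') = 0`, and
`β q' = p'` together with the equation gives `β q = p`, so `p q' = p' q`, contradiction). Now
induct on the length: `InI (c::w) β`, `InI (c'::w') β` give `InI w β`, `InI w' β`, so `w = w'`,
the parameters `1/(c+θ) = 1/(c'+θ')` agree and `c = c'` since `θ,θ' ∈ (0,1)`. -/
def S_DISJ : Prop := ∀ (w w' : List ℕ) (β : ℝ), (∀ c ∈ w, 1 ≤ c) → (∀ c ∈ w', 1 ≤ c) →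
  w.length = w'.length → InI w β → InI w' β → w = w'

/-- CNTI (uses `S_INTV`). Counting the `b` whose fraction lies in a given cylinder.

PROOF. The cylinder is the open interval with end points `p/q` and `(p+p')/(q+q')`, which lie in
`[0,1]` (induction: `0 ≤ p ≤ q`, `p + p' ≤ q + q'`; for `[]` they are `0` and `1`), of length
`|p q' - p' q|/(q(q+q')) = len w`. (Every `β` strictly between is attained:
`θ = (β q - p)/(p' - β q')`.) Let `lo < hi` be the end points, `A = ⌊M lo⌋`, and `L` the number of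
integers `y` with `M lo < y < M hi`; they form the interval `(A, A+L]`, `L ≥ M(hi - lo) - 1`, `L ≤ M`
and `y < M`. If `L` would be negative the claim is trivial. Apply `S_INTV` with `v = g`, `c = α`:
the count is `≥ L - gcd(g,M) ≥ L - g`. (For `g = 0`... not needed: `1 ≤ g`.) -/
def S_CNTI : Prop := ∀ (g M a0 α : ℕ) (w : List ℕ), 1 ≤ g → 1 ≤ M → Nat.Coprime a0 M →
  (∀ c ∈ w, 1 ≤ c) →
  (M : ℝ) * len w - 1 - (g : ℝ) ≤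
    (((range M).filter (fun b => ∃ y : ℕ, y < M ∧ M ∣ a0 * y + α + g * b ∧
      InI w ((y : ℝ) / (M : ℝ)))).card : ℝ)

/-- CYL. A cylinder yields a good set.

PROOF. For a word `w` put `k(w) = (q(w) y - p(w) M, g q(w))`. It is dual:
`g a0 (q y - p M) + (α + g b) g q = g (q (a0 y + α + g b) - a0 p M)` is divisible by `gM`.
Let `β = y/M` and for `InI w β` with parameter `θ` put `δ(w) = |q β - p|`, `δ'(w) = |q' β - p'|`; from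
`p q' - p' q = ±1`: `δ'(w) = 1/(q+q'θ)`, `δ(w) = θ/(q+q'θ)`. For `w = c::v` (then `InI v β` with
parameter `1/(c+θ)`, see `S_DISJ`): `δ'(w) = δ(v)`, and `δ'(v) = (c+θ) δ(v)`.
Prove by induction on `w`: there is a good set `K` (for `g M`, `vec 1 g a0 α b`, `R`) with
`FF c0 H w ≤ wt K` and for all `k ∈ K`: `|k_0| ≥ M δ'(w)`, `c0 |k_1| ≤ g q(w)`.
`w = []`: `K = ∅`. Step `w = c::v`, `K_v` for `v`: if `c ∉ [c0,H]` take `K_v` (`δ'(v) ≥ δ(v) = δ'(w)`,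
`q(v) ≤ q(w)`). If `c0 ≤ c ≤ H` take `K_v ∪ {k(v)}`: for `k ∈ K_v`,
`|k_0| ≥ M δ'(v) ≥ c M δ(v) ≥ R |k(v)_0|` and `R|k_1| ≤ c0 |k_1| ≤ g q(v) = k(v)_1`; `k(v) ∉ K_v` since
`c0 ≥ 8`; new invariants: `|k(v)_0| = M δ(v) = M δ'(w) > 0`, `c0 g q(v) ≤ g q(w)`.
`8|k(v)_0| = 8 M/(q(w)+q'(w)θ) ≤ 8M/c ≤ M ≤ gM`, `8 g q(v) ≤ 8 g q(w) ≤ gM`, and the weight
`gM/(Mδ(v) g q(v)) = (q(w)+q'(w)θ)/q(v) ≥ c`. -/
def S_CYL : Prop := ∀ (R c0 H g M a0 y : ℕ) (α b : Fin 1 → ℕ) (w : List ℕ), R ≤ c0 → 8 ≤ c0 →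
  1 ≤ g → 1 ≤ M → (∀ c ∈ w, 1 ≤ c) → 8 * (qq w).1 ≤ M → M ∣ a0 * y + α 0 + g * b 0 →
  InI w ((y : ℝ) / (M : ℝ)) → Good 2 R (g * M) (vec 1 g a0 α b) (FF c0 H w : ℝ)

/-- FINEW (uses `S_MASS S_SQ S_FE`). The fine words have almost full measure and are few.

PROOF. `n ≥ 1`. All words: total length `≥ 1 - 2n/(n²+1)` (`S_MASS`, `D = n²`). Words with `q > Q`:
`∑ len ≤ ∑ len √q/√Q ≤ 6^n/√Q` (`S_SQ`). Words with `FF < n log n/48`: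
`∑ len ≤ ∑ len exp((n log n/48 - FF)/n) = exp(log n/48) ∑ len exp(-FF/n)` and `S_FE` with
`H = n ≤ D = n²`. Cardinality: `len w ≥ 1/(2q²) ≥ 1/(2Q²)` (`q' ≤ q`) and `∑ len ≤ 1`. -/
def S_FINEW : Prop := ∀ (c0 n : ℕ) (Q : ℝ), 1 ≤ c0 → c0 ^ 2 ≤ n → 1 ≤ Q →
  1 - 2 * (n : ℝ) / ((n : ℝ) ^ 2 + 1) - 6 ^ n / Real.sqrt Q -
      Real.exp (Real.log (n : ℝ) / 48) * (1 - Real.log (n : ℝ) / (24 * (n : ℝ))) ^ n
    ≤ ∑ w ∈ (words (n ^ 2) n).filter (fun w => ((qq w).1 : ℝ) ≤ Q ∧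
        (n : ℝ) * Real.log (n : ℝ) / 48 ≤ (FF c0 n w : ℝ)), len w ∧
  ((((words (n ^ 2) n).filter (fun w => ((qq w).1 : ℝ) ≤ Q ∧
        (n : ℝ) * Real.log (n : ℝ) / 48 ≤ (FF c0 n w : ℝ))).card : ℕ) : ℝ) ≤ 2 * Q ^ 2

/-- UNI (uses `S_DISJ S_CNTI S_CYL`). Union over a set of words.

PROOF. For `w ∈ W` let `S_w` be the set of `b < M` such that there is `y < M` with
`M ∣ a0 y + α + g b` and `InI w (y/M)`. The `y < M` belonging to `b` is unique since `a0` is a unit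
mod `M`, so by `S_DISJ` the sets `S_w` are pairwise disjoint; `#S_w ≥ M len w - 1 - g` by `S_CNTI`;
each `b ∈ S_w` is good with `FF c0 H w ≥ F` by `S_CYL`. (`Fin 1 → Fin M` is `Fin M`:
`Equiv.funUnique`.) -/
def S_UNI : Prop := ∀ (R c0 H g M a0 n D : ℕ) (α : Fin 1 → ℕ) (W : Finset (List ℕ)) (F : ℝ),
  R ≤ c0 → 8 ≤ c0 → 1 ≤ g → 1 ≤ M → Nat.Coprime a0 M → W ⊆ words D n →
  (∀ w ∈ W, 8 * (qq w).1 ≤ M ∧ F ≤ (FF c0 H w : ℝ)) →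
  ∑ w ∈ W, ((M : ℝ) * len w - 1 - (g : ℝ)) ≤
    ((univ.filter (fun b : Fin 1 → Fin M => Good 2 R (g * M)
      (vec 1 g a0 α (fun i => (b i : ℕ))) F)).card : ℝ)

/-- ASYE. Asymptotics for `e = 1` (pure real analysis).

PROOF. `n = ⌊log N/32⌋`. `6^n/√(N^(1/4)) ≤ N^(log 6/32 - 1/8)` and `log 6 < 2`;
`exp(log n/48) (1 - log n/(24n))^n ≤ exp(log n/48 - log n/24) = n^(-1/48)`; `2n/(n²+1) ≤ 2/n`. All tend
to `0`. `n ≥ log N/64`, `log n ≥ (1/2) loglog N` for `N` large, so `c = 1/(64*2*48)`. If `gM = N`,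
`g ≤ N^(1/100)` then `M ≥ N^(99/100)`, `2 N^(1/2) (1+g) ≤ 4 N^(51/100) ≤ (ε/2) N^(99/100)` and
`8 N^(1/4) ≤ N^(99/100)` for `N` large. -/
def S_ASYE : Prop := ∀ (c0 : ℕ) (ε : ℝ), 0 < ε → ∃ c : ℝ, ∃ N0 : ℕ, 0 < c ∧ 1 ≤ N0 ∧
  ∀ N : ℕ, N0 ≤ N → ∃ n : ℕ, 1 ≤ n ∧ c0 ^ 2 ≤ n ∧
    2 * (n : ℝ) / ((n : ℝ) ^ 2 + 1) + 6 ^ n / Real.sqrt ((N : ℝ) ^ (1 / 4 : ℝ)) +
      Real.exp (Real.log (n : ℝ) / 48) * (1 - Real.log (n : ℝ) / (24 * (n : ℝ))) ^ n ≤ ε / 2 ∧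
    c * (Real.log (N : ℝ)) ^ 1 * Real.log (Real.log (N : ℝ)) ≤
      (n : ℝ) * Real.log (n : ℝ) / 48 ∧
    ∀ g M : ℕ, g * M = N → (g : ℝ) ≤ (N : ℝ) ^ (1 / 100 : ℝ) →
      2 * ((N : ℝ) ^ (1 / 4 : ℝ)) ^ 2 * (1 + (g : ℝ)) ≤ ε / 2 * (M : ℝ) ∧
      8 * (N : ℝ) ^ (1 / 4 : ℝ) ≤ (M : ℝ)

/-- CORE1 (uses `S_FINEW S_UNI S_ASYE`). The core statement for `e = 1`.

PROOF. `c0 = max R 8`, `γ = 1/100`, `c, N0` from `S_ASYE`. For `N = gM ≥ N0` (`g, M ≥ 1`) take `n`, put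
`Q = N^(1/4) ≥ 1`, `W` the fine words of `S_FINEW`, `H = n`, `D = n²`, `F = n log n/48`. For `w ∈ W`:
`8 q(w) ≤ 8 Q ≤ M`. `S_UNI`: the number of good `b` is at least
`M ∑_W len w - (1+g) #W ≥ M (1 - ε/2) - 2 Q² (1+g) ≥ (1-ε) M`. So at most `ε M` are not good, with the
value `n log n/48 ≥ c log N loglog N` (`Good` is monotone in `s`). (`gcd(α 0, g) = 1` is not
needed.) -/
def S_CORE1 : Prop := CORE 1

/-! ## The final statement -/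

/-- the answer to MP_6b2836_nt -/
def S_FINAL : Prop := ∀ d : ℕ, 2 ≤ d → ∀ χ : ℝ, χ < 1 → ∃ C : ℝ, 0 < C ∧ ∀ N : ℕ, 1 ≤ N →
  χ * (N : ℝ) ^ d ≤ ((univ.filter (fun a : Fin d → Fin N =>
    C * ((Real.log (N : ℝ)) ^ (d - 1) * Real.log (Real.log (N : ℝ))) / (N : ℝ) ≤
      Disc d N (fun i => (a i : ℕ)))).card : ℝ)

end Pool.Agent.H484.AL
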